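import Pool.Agent.K4H87.RPO.Gad

/-! Encoding of arithmetic constraints. -/

set_option autoImplicit false

namespace Pool.Agent.K4H87.RPO

open Pool.Agent.H761R3.Sys

theorem Df.top (M : Mdl) (γ : Type) : Df M γ (fun _ => True) :=
  Df.of [] _ (fun _ _ => trivial) (fun _ _ c hc => by simp at hc)

theorem Df.all {M : Mdl} {γ ι : Type} (L : List ι) (R : ι → (γ → Wd) → Prop)
    (h : ∀ i ∈ L, Df M γ (R i)) : Df M γ (fun u => ∀ i ∈ L, R i u) := by
  induction L with
  | nil => exact (Df.top M γ).congr (fun u => by simp)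
  | cons i L ih =>
    refine ((h i (by simp)).and (ih fun j hj => h j (by simp [hj]))).congr (fun u => ?_)
    simp

/-- `y = b^(k+1)` for `x = a^k` -/
theorem df_y (M : Mdl) {γ : Type} (x y : γ) :
    Df M γ (fun u => ∃ k, u x = rp true k ∧ u y = rp false (k + 1)) := by
  have h1 := df_mul M (γ := γ ⊕ Fin 1) (Sum.inl x) (Sum.inr 0) (Sum.inl y)
  have h2 := df_eq M (γ := γ ⊕ Fin 1) (tv [] (Sum.inr 0)) (tg [false])
  refine (h1.and h2).ex.congr fun u => ?_
  constructor
  · rintro ⟨k, hx, hy⟩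
    exact ⟨fun _ => [false], ⟨k, 1, le_rfl, hx, rfl, by simp [hy]⟩, by simp⟩
  · rintro ⟨t, ⟨k, m, hm, hx, hb, hy⟩, hb'⟩
    simp only [tv_wd, tg_wd, List.nil_append] at hb'
    rw [hb] at hb'
    obtain rfl : m = 1 := rp_inj hb'
    exact ⟨k, hx, by simpa using hy⟩

theorem df_addc (M : Mdl) {γ : Type} (i j l : γ) :
    Df M γ (fun u => ∃ x y z, u i = rp true x ∧ u j = rp true y ∧ u l = rp true z ∧
      x + y = z) := by
  have h0 := df_y M (γ := γ ⊕ Fin 4) (Sum.inl i) (Sum.inr 0)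
  have h1 := df_y M (γ := γ ⊕ Fin 4) (Sum.inl j) (Sum.inr 1)
  have h2 := df_y M (γ := γ ⊕ Fin 4) (Sum.inl l) (Sum.inr 2)
  have h3 := df_eq M (γ := γ ⊕ Fin 4) (tv [false] (Sum.inr 2)) (tv [] (Sum.inr 3))
  have h4 := df_add M true (γ := γ ⊕ Fin 4) (Sum.inr 0) (Sum.inr 1) (Sum.inr 3)
  refine (h0.and (h1.and (h2.and (h3.and h4)))).ex.congr fun u => ?_
  constructor
  · rintro ⟨x, y, z, hx, hy, hz, rfl⟩
    refine ⟨![rp false (x + 1), rp false (y + 1), rp false (x + y + 1), rp false (x + y + 2)],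
      ⟨x, hx, rfl⟩, ⟨y, hy, rfl⟩, ⟨_, hz, rfl⟩, ?_, x + 1, y + 1, by omega, rfl, rfl, ?_⟩
    · simp only [tv_wd]
      exact (rp_succ false (x + y + 1)).symm
    · change rp false (x + y + 2) = rp false _
      congr 1
      omega
  · rintro ⟨t, ⟨x, hx, h0⟩, ⟨y, hy, h1⟩, ⟨z, hz, h2⟩, h3, n, m, -, h4, h5, h6⟩
    refine ⟨x, y, z, hx, hy, hz, ?_⟩
    simp only [tv_wd, List.nil_append] at h3
    rw [h0] at h4
    rw [h1] at h5
    rw [h2, h6] at h3
    obtain rfl := rp_inj h4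
    obtain rfl := rp_inj h5
    have := congrArg List.length h3
    simp at this
    omega

theorem df_onec (M : Mdl) {γ : Type} (i : γ) :
    Df M γ (fun u => ∃ x, u i = rp true x ∧ x = 1) := by
  refine (df_eq M (tv [] i) (tg [true])).congr fun u => ?_
  simp only [tv_wd, tg_wd, List.nil_append]
  constructor
  · rintro ⟨x, hx, rfl⟩
    exact hx
  · intro h
    exact ⟨1, h, rfl⟩

theorem df_mulc (M : Mdl) {γ : Type} (i j l : γ) :
    Df M γ (fun u => ∃ x y z, u i = rp true x ∧ u j = rp true y ∧ u l = rp true z ∧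
      x * y = z) := by
  have h0 := df_y M (γ := γ ⊕ Fin 6) (Sum.inl i) (Sum.inr 0)
  have h1 := df_y M (γ := γ ⊕ Fin 6) (Sum.inl j) (Sum.inr 1)
  have h2 := df_y M (γ := γ ⊕ Fin 6) (Sum.inl l) (Sum.inr 2)
  have h3 := df_mul M (γ := γ ⊕ Fin 6) (Sum.inl i) (Sum.inr 1) (Sum.inr 3)
  have h4 := df_add M true (γ := γ ⊕ Fin 6) (Sum.inr 0) (Sum.inr 1) (Sum.inr 4)
  have h5 := df_eq M (γ := γ ⊕ Fin 6) (tv [false, false] (Sum.inr 3)) (tv [] (Sum.inr 5))
  have h6 := df_add M true (γ := γ ⊕ Fin 6) (Sum.inr 2) (Sum.inr 4) (Sum.inr 5)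
  refine (h0.and (h1.and (h2.and (h3.and (h4.and (h5.and h6)))))).ex.congr fun u => ?_
  constructor
  · rintro ⟨x, y, z, hx, hy, hz, rfl⟩
    refine ⟨![rp false (x + 1), rp false (y + 1), rp false (x * y + 1),
      rp false ((y + 1) * (x + 1)), rp false (x + 1 + (y + 1)),
      rp false ((y + 1) * (x + 1) + 2)],
      ⟨x, hx, rfl⟩, ⟨y, hy, rfl⟩, ⟨_, hz, rfl⟩, ⟨x, y + 1, by omega, hx, rfl, rfl⟩,
      ⟨x + 1, y + 1, by omega, rfl, rfl, rfl⟩, ?_,
      ⟨x * y + 1, x + 1 + (y + 1), by omega, rfl, rfl, ?_⟩⟩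
    · simp only [tv_wd]
      change rp false 2 ++ rp false ((y + 1) * (x + 1)) = rp false ((y + 1) * (x + 1) + 2)
      rw [← rp_add, Nat.add_comm]
    · change rp false ((y + 1) * (x + 1) + 2) = rp false _
      congr 1
      ring
  · rintro ⟨t, ⟨x, hx, h0⟩, ⟨y, hy, h1⟩, ⟨z, hz, h2⟩, ⟨k, m, -, hk, hm, h3⟩,
      ⟨n1, m1, -, h4a, h4b, h4c⟩, h5, ⟨n2, m2, -, h6a, h6b, h6c⟩⟩
    refine ⟨x, y, z, hx, hy, hz, ?_⟩
    simp only [tv_wd, List.nil_append] at h5
    rw [hx] at hk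
    obtain rfl := rp_inj hk
    rw [h1] at hm h4b
    obtain rfl := rp_inj hm
    obtain rfl := rp_inj h4b
    rw [h0] at h4a
    obtain rfl := rp_inj h4a
    rw [h2] at h6a
    obtain rfl := rp_inj h6a
    rw [h4c] at h6b
    obtain rfl := rp_inj h6b
    rw [h3, h6c] at h5
    have := congrArg List.length h5
    simp at this
    nlinarith

/-- word form of an arithmetic constraint -/
def conR {γ : Type} (f : ℕ → γ) (u : γ → Wd) : Con → Prop
  | .add i j l => ∃ x y z, u (f i) = rp true x ∧ u (f j) = rp true y ∧ u (f l) = rp true z ∧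
      x + y = z
  | .one i => ∃ x, u (f i) = rp true x ∧ x = 1
  | .mul i j l => ∃ x y z, u (f i) = rp true x ∧ u (f j) = rp true y ∧ u (f l) = rp true z ∧
      x * y = z

theorem conR_iff {γ : Type} (f : ℕ → γ) (u : γ → Wd) (x : γ → ℕ) (hu : ∀ i, u i = rp true (x i))
    (c : Con) : conR f u c ↔ c.Holds (x ∘ f) := by
  have key : ∀ i n, u i = rp true n ↔ n = x i := fun i n => by
    rw [hu]
    exact ⟨fun h => (rp_inj h).symm, fun h => by rw [h]⟩
  cases c with
  | add i j l =>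
    simp only [conR, Con.Holds, key, Function.comp]
    constructor
    · rintro ⟨_, _, _, rfl, rfl, rfl, h⟩
      exact h
    · intro h
      exact ⟨_, _, _, rfl, rfl, rfl, h⟩
  | one i =>
    simp only [conR, Con.Holds, key, Function.comp]
    constructor
    · rintro ⟨_, rfl, h⟩
      exact h
    · intro h
      exact ⟨_, rfl, h⟩
  | mul i j l =>
    simp only [conR, Con.Holds, key, Function.comp]
    constructor
    · rintro ⟨_, _, _, rfl, rfl, rfl, h⟩
      exact h
    · intro h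
      exact ⟨_, _, _, rfl, rfl, rfl, h⟩

theorem df_con (M : Mdl) {γ : Type} (f : ℕ → γ) (c : Con) : Df M γ (fun u => conR f u c) := by
  cases c with
  | add i j l => exact df_addc M _ _ _
  | one i => exact df_onec M _
  | mul i j l => exact df_mulc M _ _ _

/-- every recursively enumerable set is expressed by one finite system of literals with a
marked variable -/
theorem enc_re (M : Mdl) (S : ℕ → Prop) (hS : REPred S) :
    ∃ (V : Type) (_ : Fintype V) (v0 : V) (L : List (Lit V)),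
      (∀ n, S n → ∃ u : V → Wd, (∀ c ∈ L, M.Holds (fun v => M.W (u v)) c) ∧
        u v0 = rp true n) ∧
      (∀ n (x : V → M.T), (∀ v, M.Ok (x v)) → (∀ c ∈ L, M.Holds x c) →
        x v0 = M.W (rp true n) → S n) := by
  obtain ⟨k, L, hk, hL, hSL⟩ := exists_sys S hS
  have : NeZero k := ⟨by omega⟩
  let f : ℕ → Fin k := fun i => Fin.ofNat k i
  have hf : ∀ i, i < k → ((f i : Fin k) : ℕ) = i := fun i hi => by
    simp [f, Fin.ofNat, Nat.mod_eq_of_lt hi]
  have hd : Df M (Fin k) (fun u => (∀ i ∈ List.finRange k, ∃ n, u i = rp true n) ∧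
      ∀ c ∈ L, conR f u c) :=
    (Df.all _ _ fun i _ => df_pure M true i).and (Df.all _ _ fun c _ => df_con M f c)
  obtain ⟨β, hβ, L', h1, h2⟩ := hd
  have hc : ∀ (x : ℕ → ℕ) (c : Con), c.Below k → (c.Holds ((fun i : Fin k => x i) ∘ f) ↔
      c.Holds x) := by
    intro x c hc
    cases c with
    | add i j l =>
      simp only [Con.Below] at hc
      simp only [Con.Holds, Function.comp, hf _ hc.1, hf _ hc.2.1, hf _ hc.2.2]
    | one i =>
      simp only [Con.Below] at hc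
      simp only [Con.Holds, Function.comp, hf _ hc]
    | mul i j l =>
      simp only [Con.Below] at hc
      simp only [Con.Holds, Function.comp, hf _ hc.1, hf _ hc.2.1, hf _ hc.2.2]
  refine ⟨Fin k ⊕ β, inferInstance, Sum.inl (f 0), L', fun n hn => ?_, fun n x hok hx hx0 => ?_⟩
  · obtain ⟨x, hx0, hx⟩ := (hSL n).1 hn
    let u : Fin k → Wd := fun i => rp true (x i)
    obtain ⟨y, hy⟩ := h2 u ⟨fun i _ => ⟨_, rfl⟩, fun c hcL => by
      rw [conR_iff f u (fun i => x i) (fun i => rfl), hc x c (hL c hcL)]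
      exact hx c hcL⟩
    refine ⟨Sum.elim u y, hy, ?_⟩
    change rp true (x (f 0)) = _
    rw [hf 0 hk, hx0]
  · obtain ⟨hp, hq⟩ := h1 x hok hx
    have hp' : ∀ i : Fin k, ∃ n, M.sk (x (Sum.inl i)) = rp true n := fun i =>
      hp i (List.mem_finRange i)
    choose z hz using hp'
    rw [hSL]
    refine ⟨fun i => z (f i), ?_, fun c hcL => ?_⟩
    · have h3 := hz (f 0)
      rw [hx0, M.skW] at h3
      exact (rp_inj h3).symm
    · exact (conR_iff f _ z hz c).1 (hq c hcL)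

end Pool.Agent.K4H87.RPO
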