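import Mathlib

/-! Ground terms, the recursive path ordering with status, and existential sentences. -/

set_option autoImplicit false

namespace Pool.Agent.K4H87.RPO

variable {q : ℕ}

/-- Ground terms over the finite signature with symbols `Fin q` and arities `ar`. -/
inductive Tm (ar : Fin q → ℕ) : Type
  | app (f : Fin q) (a : Fin (ar f) → Tm ar) : Tm ar

variable (ar : Fin q → ℕ)

/-- The congruence generated by permuting the arguments of the symbols with status `mul`
(`st f = true`). -/
inductive Eqv (st : Fin q → Bool) : Tm ar → Tm ar → Prop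
  | refl (s : Tm ar) : Eqv st s s
  | symm {s t : Tm ar} : Eqv st s t → Eqv st t s
  | trans {s t u : Tm ar} : Eqv st s t → Eqv st t u → Eqv st s u
  | congr (f : Fin q) (a b : Fin (ar f) → Tm ar) :
      (∀ i, Eqv st (a i) (b i)) → Eqv st (Tm.app f a) (Tm.app f b)
  | perm (f : Fin q) (a : Fin (ar f) → Tm ar) (σ : Equiv.Perm (Fin (ar f))) :
      st f = true → Eqv st (Tm.app f a) (Tm.app f (fun i => a (σ i)))

/-- Lexicographic extension of `gt` (modulo `E`) to `m`-tuples. -/
def LexExt {α : Type} (E gt : α → α → Prop) {m : ℕ} (a b : Fin m → α) : Prop :=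
  ∃ i, (∀ j, j < i → E (a j) (b j)) ∧ gt (a i) (b i)

/-- Multiset extension of `gt` (modulo `E`) to multisets with `m` elements each: after matching
the two families by a permutation, the elements outside a nonempty `X` are equivalent, and the
elements in `X` are replaced by elements each of which is smaller than some removed element. -/
def MulExt {α : Type} (E gt : α → α → Prop) {m : ℕ} (a b : Fin m → α) : Prop :=
  ∃ (σ : Equiv.Perm (Fin m)) (X : Finset (Fin m)), X.Nonempty ∧
    (∀ i, i ∉ X → E (a i) (b (σ i))) ∧ ∀ i ∈ X, ∃ k ∈ X, gt (a k) (b (σ i))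

/-- Extension of `gt` to argument tuples according to the status (`false` is `lex`, `true` is
`mul`). -/
def Ext {α : Type} (E gt : α → α → Prop) (s : Bool) {m : ℕ} (a b : Fin m → α) : Prop :=
  (s = false ∧ LexExt E gt a b) ∨ (s = true ∧ MulExt E gt a b)

/-- `gt` satisfies the recursive definition of the recursive path ordering given by the
precedence `prec` (`prec f g` means `f ≻ g`) and the status `st`. -/
def IsRPO (prec : Fin q → Fin q → Prop) (st : Fin q → Bool) (gt : Tm ar → Tm ar → Prop) : Prop :=
  ∀ (f : Fin q) (a : Fin (ar f) → Tm ar) (t : Tm ar), gt (Tm.app f a) t ↔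
    (∃ i, gt (a i) t ∨ Eqv ar st (a i) t) ∨
    (∃ (g : Fin q) (b : Fin (ar g) → Tm ar), t = Tm.app g b ∧ prec f g ∧
      ∀ j, gt (Tm.app f a) (b j)) ∨
    (∃ b : Fin (ar f) → Tm ar, t = Tm.app f b ∧ (∀ j, gt (Tm.app f a) (b j)) ∧
      Ext (Eqv ar st) gt (st f) a b)

/-- Terms with variables `var 0, var 1, ...`. -/
inductive VT : Type
  | var (k : ℕ) : VT
  | app (f : Fin q) (a : Fin (ar f) → VT) : VT

/-- Quantifier-free formulas over `=` and `>`. -/
inductive QF : Type
  | eq (u v : VT ar) : QF
  | gt (u v : VT ar) : QF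
  | neg (φ : QF) : QF
  | and (φ ψ : QF) : QF
  | or (φ ψ : QF) : QF

variable {ar}

/-- Value of a term under an assignment of ground terms to the variables. -/
def VT.eval (x : ℕ → Tm ar) : VT ar → Tm ar
  | .var k => x k
  | .app f a => Tm.app f (fun i => (a i).eval x)

/-- Truth of a quantifier-free formula in the ground terms ordered by `gt`. -/
def QF.Holds (gt : Tm ar → Tm ar → Prop) (x : ℕ → Tm ar) : QF ar → Prop
  | .eq u v => u.eval x = v.eval x
  | .gt u v => gt (u.eval x) (v.eval x)
  | .neg φ => ¬ φ.Holds gt x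
  | .and φ ψ => φ.Holds gt x ∧ ψ.Holds gt x
  | .or φ ψ => φ.Holds gt x ∨ ψ.Holds gt x

/-- The sentence `∃ x₀ x₁ ..., φ` is true. -/
def QF.ExTrue (gt : Tm ar → Tm ar → Prop) (φ : QF ar) : Prop := ∃ x : ℕ → Tm ar, φ.Holds gt x

/-- Code of a term as a list of numbers (Polish form). -/
def VT.code : VT ar → List ℕ
  | .var k => [0, k]
  | .app f a => ((f : ℕ) + 1) :: (List.ofFn (fun i => (a i).code)).flatten

/-- Code of a quantifier-free formula as a list of numbers (Polish form). -/
def QF.code : QF ar → List ℕ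
  | .eq u v => 0 :: (u.code ++ v.code)
  | .gt u v => 1 :: (u.code ++ v.code)
  | .neg φ => 2 :: φ.code
  | .and φ ψ => 3 :: (φ.code ++ ψ.code)
  | .or φ ψ => 4 :: (φ.code ++ ψ.code)

/-- There is an algorithm which, given the code of a quantifier-free formula `φ`, decides whether
the sentence `∃ x₀ x₁ ..., φ` is true in the ground terms ordered by `gt`. -/
def DecidableEx (gt : Tm ar → Tm ar → Prop) : Prop :=
  ∃ A : List ℕ → Prop, ComputablePred A ∧ ∀ φ : QF ar, A φ.code ↔ φ.ExTrue gt

end Pool.Agent.K4H87.RPO
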