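import Pool.Agent.K4H87.RPO.Mul
import Pool.Agent.H761R3.Sys

/-! Relations on words expressed by finitely many literals over an ordering whose elements have
a skeleton word. -/

set_option autoImplicit false

namespace Pool.Agent.K4H87.RPO

/-- an ordered set with two letters acting, and skeleton words -/
structure Mdl where
  T : Type
  gt : T → T → Prop
  app : Bool → T → T
  K : T
  Ok : T → Prop
  sk : T → Wd
  okK : Ok K
  okapp : ∀ p x, Ok x → Ok (app p x)
  skK : sk K = []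
  skapp : ∀ p x, Ok x → sk (app p x) = p :: sk x
  a1 : ∀ s t, Ok s → Ok t → gt s t → (sk t).Sublist (sk s)
  a2 : ∀ s t p, Ok s → Ok t → (sk t ++ [p]).Sublist (sk s) → gt s t
  a3 : ∀ (s : T) (v : Wd), Ok s → v.Sublist (sk s) → gt s (v.foldr app K) ∨ s = v.foldr app K

/-- a term: a word of letters in front of the constant or of a variable -/
abbrev Tr (V : Type) := Wd × Option V

def Tr.wd {V : Type} (u : V → Wd) (s : Tr V) : Wd := s.1 ++ s.2.elim [] u

inductive Lit (V : Type) : Type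
  | ge (s t : Tr V) : Lit V
  | nge (s t : Tr V) : Lit V
  | ngr (s : Tr V) (w : Wd) : Lit V
  | eq (s t : Tr V) : Lit V

def Tr.map {V W : Type} (f : V → W) (s : Tr V) : Tr W := (s.1, s.2.map f)

theorem Tr.wd_map {V W : Type} (f : V → W) (s : Tr V) (u : W → Wd) :
    (s.map f).wd u = s.wd (u ∘ f) := by
  rcases s with ⟨w, _ | v⟩ <;> rfl

def Lit.map {V W : Type} (f : V → W) : Lit V → Lit W
  | .ge s t => .ge (s.map f) (t.map f)
  | .nge s t => .nge (s.map f) (t.map f)
  | .ngr s w => .ngr (s.map f) w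
  | .eq s t => .eq (s.map f) (t.map f)

/-- what a true literal says about the skeletons -/
def Lit.Snd {V : Type} (u : V → Wd) : Lit V → Prop
  | .ge s t => (t.wd u).Sublist (s.wd u)
  | .nge s t => ∀ r : Bool, ¬ (t.wd u ++ [r]).Sublist (s.wd u)
  | .ngr s w => ¬ w.Sublist (s.wd u)
  | .eq s t => s.wd u = t.wd u

/-- what makes a literal true on clean words -/
def Lit.Cmp {V : Type} (u : V → Wd) : Lit V → Prop
  | .ge s t => (t.wd u).Sublist (s.wd u)
  | .nge s t => ¬ (t.wd u).Sublist (s.wd u)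
  | .ngr s w => ¬ w.Sublist (s.wd u)
  | .eq s t => s.wd u = t.wd u

namespace Mdl

variable (M : Mdl)

def W (v : Wd) : M.T := v.foldr M.app M.K

theorem ok_foldr (v : Wd) (x : M.T) (h : M.Ok x) : M.Ok (v.foldr M.app x) := by
  induction v with
  | nil => exact h
  | cons p v ih => exact M.okapp _ _ ih

theorem sk_foldr (v : Wd) (x : M.T) (h : M.Ok x) : M.sk (v.foldr M.app x) = v ++ M.sk x := by
  induction v with
  | nil => rfl
  | cons p v ih =>
    rw [List.foldr_cons, M.skapp _ _ (M.ok_foldr v x h), ih]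
    rfl

theorem okW (v : Wd) : M.Ok (M.W v) := M.ok_foldr v _ M.okK

theorem skW (v : Wd) : M.sk (M.W v) = v := by
  rw [W, M.sk_foldr v _ M.okK, M.skK, List.append_nil]

/-- value of a term -/
def ev {V : Type} (x : V → M.T) (s : Tr V) : M.T := s.1.foldr M.app (s.2.elim M.K x)

theorem ok_ev {V : Type} (x : V → M.T) (hx : ∀ v, M.Ok (x v)) (s : Tr V) : M.Ok (M.ev x s) := by
  rcases s with ⟨w, _ | v⟩
  · exact M.ok_foldr w _ M.okK
  · exact M.ok_foldr w _ (hx v)

theorem sk_ev {V : Type} (x : V → M.T) (hx : ∀ v, M.Ok (x v)) (s : Tr V) :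
    M.sk (M.ev x s) = s.wd (fun v => M.sk (x v)) := by
  rcases s with ⟨w, _ | v⟩
  · change M.sk (w.foldr M.app M.K) = _
    rw [M.sk_foldr w _ M.okK]
    simp [Tr.wd, M.skK]
  · change M.sk (w.foldr M.app (x v)) = _
    rw [M.sk_foldr w _ (hx v)]
    simp [Tr.wd]

theorem ev_W {V : Type} (u : V → Wd) (s : Tr V) :
    M.ev (fun v => M.W (u v)) s = M.W (s.wd u) := by
  rcases s with ⟨w, _ | v⟩
  · simp [ev, Tr.wd, W]
  · simp [ev, Tr.wd, W]

theorem ev_map {V W : Type} (f : V → W) (s : Tr V) (x : W → M.T) :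
    M.ev x (s.map f) = M.ev (x ∘ f) s := by
  rcases s with ⟨w, _ | v⟩ <;> rfl

/-- greater or equal -/
def Ge (s t : M.T) : Prop := M.gt s t ∨ s = t

/-- truth of a literal -/
def Holds {V : Type} (x : V → M.T) : Lit V → Prop
  | .ge s t => M.Ge (M.ev x s) (M.ev x t)
  | .nge s t => ¬ M.Ge (M.ev x s) (M.ev x t)
  | .ngr s w => ¬ M.Ge (M.ev x s) (M.W w)
  | .eq s t => M.ev x s = M.ev x t

theorem holds_map {V W : Type} (f : V → W) (c : Lit V) (x : W → M.T) :
    M.Holds x (c.map f) ↔ M.Holds (x ∘ f) c := by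
  cases c <;> simp [Lit.map, Holds, M.ev_map]

theorem snd_of_holds {V : Type} (x : V → M.T) (hx : ∀ v, M.Ok (x v)) (c : Lit V)
    (h : M.Holds x c) : c.Snd (fun v => M.sk (x v)) := by
  cases c with
  | ge s t =>
    rw [Lit.Snd, ← M.sk_ev x hx, ← M.sk_ev x hx]
    rcases h with h | h
    · exact M.a1 _ _ (M.ok_ev x hx s) (M.ok_ev x hx t) h
    · rw [h]
  | nge s t =>
    rw [Lit.Snd, ← M.sk_ev x hx, ← M.sk_ev x hx]
    intro r hr
    exact h (Or.inl (M.a2 _ _ r (M.ok_ev x hx s) (M.ok_ev x hx t) hr))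
  | ngr s w =>
    rw [Lit.Snd, ← M.sk_ev x hx]
    intro hr
    exact h (M.a3 _ w (M.ok_ev x hx s) hr)
  | eq s t =>
    rw [Lit.Snd, ← M.sk_ev x hx, ← M.sk_ev x hx]
    exact congrArg M.sk h

theorem ge_W (s t : Wd) : M.Ge (M.W s) (M.W t) ↔ t.Sublist s := by
  constructor
  · rintro (h | h)
    · have := M.a1 _ _ (M.okW s) (M.okW t) h
      rwa [M.skW, M.skW] at this
    · have := congrArg M.sk h
      rw [M.skW, M.skW] at this
      rw [this]
  · intro h
    have := M.a3 (M.W s) t (M.okW s) (by rwa [M.skW])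
    exact this

theorem holds_of_cmp {V : Type} (u : V → Wd) (c : Lit V) (h : c.Cmp u) :
    M.Holds (fun v => M.W (u v)) c := by
  cases c with
  | ge s t => rw [Holds, M.ev_W, M.ev_W, M.ge_W]; exact h
  | nge s t => rw [Holds, M.ev_W, M.ev_W, M.ge_W]; exact h
  | ngr s w => rw [Holds, M.ev_W, M.ge_W]; exact h
  | eq s t => rw [Holds, M.ev_W, M.ev_W]; exact congrArg M.W h

end Mdl

/-- Relation `P` is implied by, and `Q` implies, a finite system of literals with finitely many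
auxiliary variables. -/
def En (M : Mdl) (γ : Type) (P Q : (γ → Wd) → Prop) : Prop :=
  ∃ (β : Type) (_ : Fintype β) (L : List (Lit (γ ⊕ β))),
    (∀ x : γ ⊕ β → M.T, (∀ v, M.Ok (x v)) → (∀ c ∈ L, M.Holds x c) →
      P (fun i => M.sk (x (Sum.inl i)))) ∧
    (∀ u : γ → Wd, Q u → ∃ y : β → Wd, ∀ c ∈ L, M.Holds (fun v => M.W (Sum.elim u y v)) c)

theorem En.mono {M : Mdl} {γ : Type} {P Q P' Q' : (γ → Wd) → Prop} (h : En M γ P Q)
    (hP : ∀ u, P u → P' u) (hQ : ∀ u, Q' u → Q u) : En M γ P' Q' := by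
  obtain ⟨β, i, L, h1, h2⟩ := h
  exact ⟨β, i, L, fun x hx hL => hP _ (h1 x hx hL), fun u hu => h2 u (hQ u hu)⟩

theorem En.reindex {M : Mdl} {γ γ' : Type} {P Q : (γ → Wd) → Prop} (h : En M γ P Q)
    (f : γ → γ') : En M γ' (fun u => P (u ∘ f)) (fun u => Q (u ∘ f)) := by
  obtain ⟨β, i, L, h1, h2⟩ := h
  refine ⟨β, i, L.map (Lit.map (Sum.map f id)), fun x hx hL => ?_, fun u hu => ?_⟩
  · have := h1 (x ∘ Sum.map f id) (fun v => hx _) (fun c hc => by
      rw [← M.holds_map]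
      exact hL _ (List.mem_map_of_mem hc))
    exact this
  · obtain ⟨y, hy⟩ := h2 _ hu
    refine ⟨y, fun c hc => ?_⟩
    rw [List.mem_map] at hc
    obtain ⟨c, hc, rfl⟩ := hc
    rw [M.holds_map]
    convert hy c hc using 1
    funext v
    rcases v with v | v <;> rfl

theorem En.and {M : Mdl} {γ : Type} {P Q P' Q' : (γ → Wd) → Prop} (h : En M γ P Q)
    (h' : En M γ P' Q') : En M γ (fun u => P u ∧ P' u) (fun u => Q u ∧ Q' u) := by
  obtain ⟨β, i, L, h1, h2⟩ := h
  obtain ⟨β', i', L', h1', h2'⟩ := h'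
  refine ⟨β ⊕ β', inferInstance, L.map (Lit.map (Sum.map id Sum.inl)) ++
    L'.map (Lit.map (Sum.map id Sum.inr)), fun x hx hL => ⟨?_, ?_⟩, fun u hu => ?_⟩
  · have := h1 (x ∘ Sum.map id Sum.inl) (fun v => hx _) (fun c hc => by
      rw [← M.holds_map]
      exact hL _ (List.mem_append_left _ (List.mem_map_of_mem hc)))
    exact this
  · have := h1' (x ∘ Sum.map id Sum.inr) (fun v => hx _) (fun c hc => by
      rw [← M.holds_map]
      exact hL _ (List.mem_append_right _ (List.mem_map_of_mem hc)))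
    exact this
  · obtain ⟨y, hy⟩ := h2 _ hu.1
    obtain ⟨y', hy'⟩ := h2' _ hu.2
    refine ⟨Sum.elim y y', fun c hc => ?_⟩
    rw [List.mem_append] at hc
    rcases hc with hc | hc
    · rw [List.mem_map] at hc
      obtain ⟨c, hc, rfl⟩ := hc
      rw [M.holds_map]
      convert hy c hc using 1
      funext v
      rcases v with v | v <;> rfl
    · rw [List.mem_map] at hc
      obtain ⟨c, hc, rfl⟩ := hc
      rw [M.holds_map]
      convert hy' c hc using 1
      funext v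
      rcases v with v | v <;> rfl

theorem En.ex {M : Mdl} {γ δ : Type} [Fintype δ] {P Q : (γ ⊕ δ → Wd) → Prop}
    (h : En M (γ ⊕ δ) P Q) :
    En M γ (fun u => ∃ t : δ → Wd, P (Sum.elim u t)) (fun u => ∃ t : δ → Wd, Q (Sum.elim u t)) := by
  obtain ⟨β, i, L, h1, h2⟩ := h
  refine ⟨δ ⊕ β, inferInstance, L.map (Lit.map (Equiv.sumAssoc γ δ β)), fun x hx hL => ?_,
    fun u hu => ?_⟩
  · have := h1 (x ∘ Equiv.sumAssoc γ δ β) (fun v => hx _) (fun c hc => by
      rw [← M.holds_map]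
      exact hL _ (List.mem_map_of_mem hc))
    refine ⟨fun d => M.sk (x (Sum.inr (Sum.inl d))), ?_⟩
    convert this using 1
    funext v
    rcases v with v | v <;> rfl
  · obtain ⟨t, ht⟩ := hu
    obtain ⟨y, hy⟩ := h2 _ ht
    refine ⟨Sum.elim t y, fun c hc => ?_⟩
    rw [List.mem_map] at hc
    obtain ⟨c, hc, rfl⟩ := hc
    rw [M.holds_map]
    convert hy c hc using 1
    funext v
    rcases v with (v | v) | v <;> rfl

theorem En.lits {M : Mdl} {γ : Type} (L : List (Lit γ)) :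
    En M γ (fun u => ∀ c ∈ L, c.Snd u) (fun u => ∀ c ∈ L, c.Cmp u) := by
  refine ⟨Empty, inferInstance, L.map (Lit.map Sum.inl), fun x hx hL c hc => ?_, fun u hu => ?_⟩
  · have := hL _ (List.mem_map_of_mem hc)
    rw [M.holds_map] at this
    exact M.snd_of_holds (x ∘ Sum.inl) (fun v => hx _) c this
  · refine ⟨Empty.elim, fun c hc => ?_⟩
    rw [List.mem_map] at hc
    obtain ⟨c, hc, rfl⟩ := hc
    rw [M.holds_map]
    exact M.holds_of_cmp u c (hu c hc)

/-- exactly definable relations -/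
def Df (M : Mdl) (γ : Type) (R : (γ → Wd) → Prop) : Prop := En M γ R R

theorem Df.congr {M : Mdl} {γ : Type} {R R' : (γ → Wd) → Prop} (h : Df M γ R)
    (e : ∀ u, R' u ↔ R u) : Df M γ R' :=
  En.mono h (fun u => (e u).2) (fun u => (e u).1)

theorem Df.reindex {M : Mdl} {γ γ' : Type} {R : (γ → Wd) → Prop} (h : Df M γ R)
    (f : γ → γ') : Df M γ' (fun u => R (u ∘ f)) := En.reindex h f

theorem Df.and {M : Mdl} {γ : Type} {R R' : (γ → Wd) → Prop} (h : Df M γ R)
    (h' : Df M γ R') : Df M γ (fun u => R u ∧ R' u) := En.and h h'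

theorem Df.ex {M : Mdl} {γ δ : Type} [Fintype δ] {R : (γ ⊕ δ → Wd) → Prop}
    (h : Df M (γ ⊕ δ) R) : Df M γ (fun u => ∃ t : δ → Wd, R (Sum.elim u t)) := En.ex h

theorem Df.of {M : Mdl} {γ : Type} (L : List (Lit γ)) (R : (γ → Wd) → Prop)
    (h1 : ∀ u, (∀ c ∈ L, c.Snd u) → R u) (h2 : ∀ u, R u → ∀ c ∈ L, c.Cmp u) : Df M γ R :=
  En.mono (En.lits L) h1 h2

end Pool.Agent.K4H87.RPO
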