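import Pool.Agent.K4H87.RPO.Ground

/-! Undecidability of the existential theory. -/

set_option autoImplicit false

namespace Pool.Agent.K4H87.RPO

variable {q : ℕ} {ar : Fin q → ℕ} {prec : Fin q → Fin q → Prop} {st : Fin q → Bool} {κ : Fin q}
  {F : Bool → Fin q} {gt : Tm ar → Tm ar → Prop}

/-- a recursively enumerable set of natural numbers that is not computable -/
theorem exists_re : ∃ S : ℕ → Prop, REPred S ∧ ¬ ComputablePred S := by
  refine ⟨fun n => ∃ c : Nat.Partrec.Code, Encodable.decode (α := Nat.Partrec.Code) n = some c ∧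
    (c.eval 0).Dom, ?_, ?_⟩
  · have h := ComputablePred.halting_problem_re 0
    have h2 : Partrec fun n : ℕ => (Part.ofOption (Encodable.decode (α := Nat.Partrec.Code) n)).bind
        (fun c => Part.assert (c.eval 0).Dom fun _ => Part.some ()) :=
      (Computable.decode.ofOption).bind (Partrec.comp h Computable.snd).to₂
    refine h2.of_eq fun n => ?_
    ext u
    simp
  · intro hc
    apply ComputablePred.halting_problem 0
    obtain ⟨hd, hcomp⟩ := hc
    have h3 : ComputablePred fun c : Nat.Partrec.Code =>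
        ∃ c' : Nat.Partrec.Code, Encodable.decode (α := Nat.Partrec.Code) (Encodable.encode c) =
          some c' ∧ (c'.eval 0).Dom := ⟨fun c => hd _, hcomp.comp Computable.encode⟩
    refine h3.of_eq fun c => ?_
    simp

/-- ground terms as terms -/
def VT.ofTm : Tm ar → VT ar
  | .app f a => VT.app f (fun i => VT.ofTm (a i))

theorem eval_ofTm (x : ℕ → Tm ar) (t : Tm ar) : (VT.ofTm t).eval x = t := by
  induction t with
  | app f a ih =>
    rw [VT.ofTm, VT.eval, funext ih]

/-- finite conjunctions -/
def conj : List (QF ar) → QF ar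
  | [] => .eq (.var 0) (.var 0)
  | φ :: L => .and φ (conj L)

theorem holds_conj (x : ℕ → Tm ar) (L : List (QF ar)) :
    (conj L).Holds gt x ↔ ∀ φ ∈ L, φ.Holds gt x := by
  induction L with
  | nil => simp [conj, QF.Holds]
  | cons φ L ih => simp [conj, QF.Holds, ih]

/-- greater or equal -/
def geF (u v : VT ar) : QF ar := .or (.gt u v) (.eq u v)

namespace Hyp

variable (H : Hyp ar prec st κ F)

/-- letter application on terms with variables -/
def vP (p : Bool) (x : VT ar) : VT ar :=
  VT.app (F p) (fun i => if (i : ℕ) + 1 = ar (F p) then x else VT.ofTm H.kk)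

theorem eval_vP (x : ℕ → Tm ar) (p : Bool) (u : VT ar) :
    (H.vP p u).eval x = H.appP p (u.eval x) := by
  rw [vP, VT.eval, appP]
  congr 1
  funext i
  split_ifs
  · rfl
  · rw [eval_ofTm]

/-- translation of terms -/
def trV {V : Type} (e : V → ℕ) (s : Tr V) : VT ar :=
  s.1.foldr H.vP (s.2.elim (VT.ofTm H.kk) (fun v => VT.var (e v)))

theorem eval_trV (hg : IsRPO ar prec st gt) {V : Type} (e : V → ℕ) (x : ℕ → Tm ar) (s : Tr V) :
    (H.trV e s).eval x = (H.mdl hg).ev (fun v => x (e v)) s := by
  rcases s with ⟨w, o⟩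
  induction w with
  | nil =>
    cases o with
    | none => exact eval_ofTm x H.kk
    | some v => rfl
  | cons p w ih =>
    change (H.vP p (H.trV e (w, o))).eval x = _
    rw [H.eval_vP, ih]
    rfl

/-- translation of literals -/
def litF {V : Type} (e : V → ℕ) : Lit V → QF ar
  | .ge s t => geF (H.trV e s) (H.trV e t)
  | .nge s t => .neg (geF (H.trV e s) (H.trV e t))
  | .ngr s w => .neg (geF (H.trV e s) (H.trV e (w, none)))
  | .eq s t => .eq (H.trV e s) (H.trV e t)

theorem holds_litF (hg : IsRPO ar prec st gt) {V : Type} (e : V → ℕ) (x : ℕ → Tm ar)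
    (c : Lit V) : (H.litF e c).Holds gt x ↔ (H.mdl hg).Holds (fun v => x (e v)) c := by
  cases c <;> simp only [litF, geF, QF.Holds, H.eval_trV hg] <;> rfl

theorem code_letter (p : Bool) : ∃ c : List ℕ, ∀ x : Tm ar,
    (VT.ofTm (H.appP p x)).code = c ++ (VT.ofTm x).code := by
  have key : ∀ (n : ℕ), 0 < n → ∀ Y : List ℕ, ∃ c : List ℕ, ∀ X : List ℕ,
      (List.ofFn (fun i : Fin n => if (i : ℕ) + 1 = n then X else Y)).flatten = c ++ X := by
    intro n hn Y
    obtain ⟨m, rfl⟩ : ∃ m, n = m + 1 := ⟨n - 1, by omega⟩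
    refine ⟨(List.ofFn (fun _ : Fin m => Y)).flatten, fun X => ?_⟩
    rw [List.ofFn_succ', List.concat_eq_append, List.flatten_append]
    simp only [Fin.val_castSucc, Fin.val_last]
    congr 1
    · congr 2
      funext i
      rw [if_neg]
      have := i.2
      omega
    · simp
  obtain ⟨c, hc⟩ := key (ar (F p)) (H.pos p) (VT.ofTm H.kk).code
  refine ⟨((F p : ℕ) + 1) :: c, fun x => ?_⟩
  rw [appP, VT.ofTm, VT.code, List.cons_append, ← hc]
  congr 3
  funext i
  split_ifs <;> rfl

include H in
theorem undec (hg : IsRPO ar prec st gt) : ¬ DecidableEx gt := by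
  rintro ⟨A, hA, hA'⟩
  obtain ⟨S, hS, hS'⟩ := exists_re
  obtain ⟨V, hV, v0, L, h1, h2⟩ := enc_re (H.mdl hg) S hS
  obtain ⟨G, hG1, hG2⟩ := H.exists_ground hg
  classical
  let e : V → ℕ := fun v => (Fintype.equivFin V v : ℕ)
  have he : Function.Injective e := fun v w h => (Fintype.equivFin V).injective (Fin.ext h)
  let φ0 : QF ar := .and (conj ((Finset.univ : Finset V).toList.flatMap (fun v =>
    G.map (fun t => QF.neg (geF (VT.var (e v)) (VT.ofTm t)))))) (conj (L.map (H.litF e)))
  let φ : ℕ → QF ar := fun n => .and φ0 (.eq (.var (e v0))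
    (VT.ofTm ((rp true n).foldr H.appP H.kk)))
  have hφ : ∀ n, S n ↔ (φ n).ExTrue gt := by
    intro n
    have hh : ∀ x : ℕ → Tm ar, (φ n).Holds gt x ↔
        ((∀ v, ∀ t ∈ G, ¬ (gt (x (e v)) t ∨ x (e v) = t)) ∧
          ∀ c ∈ L, (H.mdl hg).Holds (fun v => x (e v)) c) ∧
        x (e v0) = (rp true n).foldr H.appP H.kk := by
      intro x
      change ((conj _).Holds gt x ∧ (conj _).Holds gt x) ∧ _ = _ ↔ _
      rw [holds_conj, holds_conj, eval_ofTm]
      refine and_congr (and_congr ?_ ?_) Iff.rfl
      · constructor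
        · intro h v t ht
          have := h (QF.neg (geF (VT.var (e v)) (VT.ofTm t))) (by
            rw [List.mem_flatMap]
            exact ⟨v, by simp, List.mem_map_of_mem ht⟩)
          rw [QF.Holds, geF, QF.Holds, QF.Holds, QF.Holds, eval_ofTm] at this
          exact this
        · intro h ψ hψ
          rw [List.mem_flatMap] at hψ
          obtain ⟨v, -, hψ⟩ := hψ
          rw [List.mem_map] at hψ
          obtain ⟨t, ht, rfl⟩ := hψ
          rw [QF.Holds, geF, QF.Holds, QF.Holds, QF.Holds, eval_ofTm]
          exact h v t ht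
      · constructor
        · intro h c hc
          rw [← H.holds_litF hg]
          exact h _ (List.mem_map_of_mem hc)
        · intro h ψ hψ
          rw [List.mem_map] at hψ
          obtain ⟨c, hc, rfl⟩ := hψ
          rw [H.holds_litF hg]
          exact h c hc
    constructor
    · intro hn
      obtain ⟨u, hu, hu0⟩ := h1 n hn
      let x : ℕ → Tm ar := fun k => if h : ∃ v, e v = k then (u h.choose).foldr H.appP H.kk
        else H.kk
      have hx : ∀ v, x (e v) = (u v).foldr H.appP H.kk := by
        intro v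
        have hex : ∃ w, e w = e v := ⟨v, rfl⟩
        change (if h : ∃ w, e w = e v then (u h.choose).foldr H.appP H.kk else H.kk) = _
        rw [dif_pos hex, he hex.choose_spec]
      refine ⟨x, (hh x).2 ⟨⟨fun v t ht => ?_, ?_⟩, ?_⟩⟩
      · rw [hx]
        exact hG2 (u v) t ht
      · have : (fun v => x (e v)) = fun v => (H.mdl hg).W (u v) := funext hx
        rw [this]
        exact hu
      · rw [hx, hu0]
    · rintro ⟨x, hx⟩
      obtain ⟨⟨hx1, hx2⟩, hx3⟩ := (hh x).1 hx
      exact h2 n (fun v => x (e v)) (fun v => hG1 _ (hx1 v)) hx2 hx3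
  obtain ⟨c, hc⟩ := H.code_letter true
  have hcode : ∀ n, (VT.ofTm ((rp true n).foldr H.appP H.kk)).code =
      Nat.rec (VT.ofTm H.kk).code (fun _ y => c ++ y) n := by
    intro n
    induction n with
    | zero => rfl
    | succ n ih => rw [rp_succ, List.foldr_cons, hc, ih]
  have hcomp : Computable (fun n => (φ n).code) := by
    have h3 : Primrec (fun n : ℕ => (Nat.rec (VT.ofTm H.kk).code (fun _ y => c ++ y) n : List ℕ)) :=
      Primrec.nat_rec₁ _ (Primrec.list_append.comp (Primrec.const c) Primrec.snd)
    have h4 : Primrec (fun n : ℕ => (3 :: (φ0.code ++ (0 :: ([0, e v0] ++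
        (Nat.rec (VT.ofTm H.kk).code (fun _ y => c ++ y) n : List ℕ)))) : List ℕ)) :=
      Primrec.list_cons.comp (Primrec.const 3) (Primrec.list_append.comp (Primrec.const _)
        (Primrec.list_cons.comp (Primrec.const 0) (Primrec.list_append.comp (Primrec.const _) h3)))
    refine h4.to_comp.of_eq fun n => ?_
    rw [← hcode]
    rfl
  apply hS'
  refine ComputablePred.computable_of_manyOneReducible (p := S) (q := A)
    ⟨fun n => (φ n).code, hcomp, fun n => ?_⟩ hA
  rw [hA']
  exact hφ n

end Hyp

/-- choice of a minimal incomparable pair -/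
theorem exists_hyp (irr : ∀ h, ¬ prec h h) (tr : ∀ a b c, prec a b → prec b c → prec a c)
    (hκ : ar κ = 0) (hmin : ∀ c, prec κ c → ar c ≠ 0) (N : ℕ) : ∀ f g : Fin q,
    Nat.card {x // prec f x} + Nat.card {x // prec g x} ≤ N →
    (ar f = 1 ∨ (2 ≤ ar f ∧ st f = false)) → (ar g = 1 ∨ (2 ≤ ar g ∧ st g = false)) →
    f ≠ g → ¬ prec f g → ¬ prec g f → (∀ h, prec f h ∨ prec g h → h = κ ∨ ar h = 1) →
    ∃ F : Bool → Fin q, Hyp ar prec st κ F := by
  classical
  have hcard : ∀ f h : Fin q, prec f h → Nat.card {x // prec h x} < Nat.card {x // prec f x} := by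
    intro f h hfh
    rw [Nat.card_eq_fintype_card, Nat.card_eq_fintype_card]
    apply Fintype.card_lt_of_injective_of_notMem
      (fun x : {x // prec h x} => (⟨x.1, tr _ _ _ hfh x.2⟩ : {x // prec f x}))
      (fun x y hxy => Subtype.ext (by simpa using hxy)) (b := ⟨h, hfh⟩)
    rintro ⟨x, hx⟩
    have h1 : x.1 = h := by simpa using hx
    have h2 := x.2
    rw [h1] at h2
    exact irr h h2
  induction N with
  | zero =>
    intro f g hN hf hg hne h1 h2 hb
    refine ⟨fun p => cond p f g, irr, tr, hκ, hmin, ?_, ?_, ?_, ?_, ?_⟩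
    · rintro (_ | _)
      · exact hg
      · exact hf
    · rintro (_ | _) (_ | _) h
      · rfl
      · exact absurd h.symm hne
      · exact absurd h hne
      · rfl
    · rintro (_ | _) (_ | _)
      · exact irr _
      · exact h2
      · exact h1
      · exact irr _
    · rintro (_ | _) h hh
      · exact hb h (Or.inr hh)
      · exact hb h (Or.inl hh)
    · intro h _
      have e1 : ¬ prec f h := fun hh => by have := hcard f h hh; omega
      have e2 : ¬ prec g h := fun hh => by have := hcard g h hh; omega
      exact ⟨fun hh => absurd hh e1, fun hh => absurd hh e2⟩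
  | succ N ih =>
    intro f g hN hf hg hne h1 h2 hb
    by_cases hall : ∀ h, ar h = 1 → (prec f h ↔ prec g h)
    · refine ⟨fun p => cond p f g, irr, tr, hκ, hmin, ?_, ?_, ?_, ?_, hall⟩
      · rintro (_ | _)
        · exact hg
        · exact hf
      · rintro (_ | _) (_ | _) h
        · rfl
        · exact absurd h.symm hne
        · exact absurd h hne
        · rfl
      · rintro (_ | _) (_ | _)
        · exact irr _
        · exact h2
        · exact h1
        · exact irr _
      · rintro (_ | _) h hh
        · exact hb h (Or.inr hh)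
        · exact hb h (Or.inl hh)
    · push Not at hall
      obtain ⟨h, har, hh⟩ := hall
      rcases hh with ⟨hfh, hgh⟩ | ⟨hfh, hgh⟩
      · refine ih h g ?_ (Or.inl har) hg ?_ ?_ hgh ?_
        · have := hcard f h hfh
          omega
        · rintro rfl
          exact h1 hfh
        · exact fun hc => h1 (tr _ _ _ hfh hc)
        · rintro x (hx | hx)
          · exact hb x (Or.inl (tr _ _ _ hfh hx))
          · exact hb x (Or.inr hx)
      · refine ih f h ?_ hf (Or.inl har) ?_ hfh ?_ ?_
        · have := hcard g h hgh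
          omega
        · rintro rfl
          exact h2 hgh
        · exact fun hc => h2 (tr _ _ _ hgh hc)
        · rintro x (hx | hx)
          · exact hb x (Or.inl hx)
          · exact hb x (Or.inr (tr _ _ _ hgh hx))

end Pool.Agent.K4H87.RPO
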