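import Pool.Agent.K4H87.RPO.Enc

/-! Gadgets: addition and multiplication of lengths. -/

set_option autoImplicit false

namespace Pool.Agent.K4H87.RPO

/-- term: word in front of a variable -/
def tv {V : Type} (w : Wd) (i : V) : Tr V := (w, some i)
/-- ground term -/
def tg {V : Type} (w : Wd) : Tr V := (w, none)

@[simp] theorem tv_wd {V : Type} (w : Wd) (i : V) (u : V → Wd) : (tv w i).wd u = w ++ u i := rfl
@[simp] theorem tg_wd {V : Type} (w : Wd) (u : V → Wd) : (tg (V := V) w).wd u = w := by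
  simp [tg, Tr.wd]

theorem En.step {M : Mdl} {γ : Type} {R P Q : (γ → Wd) → Prop} (h1 : Df M γ R)
    (L : List (Lit γ)) (hs : ∀ u, R u → (∀ c ∈ L, c.Snd u) → P u)
    (hc1 : ∀ u, Q u → R u) (hc : ∀ u, Q u → ∀ c ∈ L, c.Cmp u) : En M γ P Q :=
  En.mono (En.and h1 (En.lits L)) (fun u h => hs u h.1 h.2) (fun u h => ⟨hc1 u h, hc u h⟩)

theorem Df.step {M : Mdl} {γ : Type} {R R' : (γ → Wd) → Prop} (h1 : Df M γ R)
    (L : List (Lit γ)) (hs : ∀ u, R u → (∀ c ∈ L, c.Snd u) → R' u)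
    (hc1 : ∀ u, R' u → R u) (hc : ∀ u, R' u → ∀ c ∈ L, c.Cmp u) : Df M γ R' :=
  En.mono (En.and h1 (En.lits L)) (fun u h => hs u h.1 h.2) (fun u h => ⟨hc1 u h, hc u h⟩)

theorem df_pure (M : Mdl) {γ : Type} (p : Bool) (x : γ) :
    Df M γ (fun u => ∃ n, u x = rp p n) := by
  refine Df.of [.ngr (tv [] x) [!p]] _ (fun u h => ?_) (fun u h => ?_)
  · simp only [List.mem_singleton, forall_eq, Lit.Snd, tv_wd, List.nil_append] at h
    have := pure_of h
    simpa using this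
  · obtain ⟨n, hn⟩ := h
    simp only [List.mem_singleton, forall_eq, Lit.Cmp, tv_wd, List.nil_append]
    rw [hn]
    have := not_sub_pure (q := !p) (i := n) (w := [!p]) (by simp)
    simpa using this

theorem df_eq (M : Mdl) {γ : Type} (s t : Tr γ) :
    Df M γ (fun u => s.wd u = t.wd u) := by
  refine Df.of [.eq s t] _ (fun u h => ?_) (fun u h => ?_)
  · simpa only [List.mem_singleton, forall_eq, Lit.Snd] using h
  · simpa only [List.mem_singleton, forall_eq, Lit.Cmp] using h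

/-- `x = p^n`, `y = p^n q` -/
theorem df_t1 (M : Mdl) {γ : Type} (q : Bool) (x y : γ) :
    Df M γ (fun u => ∃ n, u x = rp (!q) n ∧ u y = rp (!q) n ++ [q]) := by
  refine Df.step (df_pure M (!q) x) [.ngr (tv [] y) [q, !q], .ngr (tv [] y) [q, q],
      .ge (tv [] y) (tg [q]), .ge (tv [] y) (tv [] x), .nge (tv [] y) (tv [!q] x)]
      (fun u hu h => ?_) (fun u h => ?_) (fun u h => ?_)
  · obtain ⟨n, hn⟩ := hu
    simp only [List.forall_mem_cons, Lit.Snd, tv_wd, tg_wd, List.nil_append, hn] at h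
    exact ⟨n, hn, t1_snd h.1 h.2.1 h.2.2.1 h.2.2.2.1 h.2.2.2.2.1⟩
  · obtain ⟨n, hx, -⟩ := h
    exact ⟨n, hx⟩
  · obtain ⟨n, hx, hy⟩ := h
    simp only [List.forall_mem_cons, Lit.Cmp, tv_wd, tg_wd, List.nil_append, hx, hy]
    obtain ⟨a, b, c, d, e⟩ := t1_cmp q n
    exact ⟨a, b, c, d, e, by simp⟩

/-- `x = p^n`, `y = p^n q`, `z = p^n q p` -/
theorem df_t2 (M : Mdl) {γ : Type} (q : Bool) (x y z : γ) :
    Df M γ (fun u => ∃ n, u x = rp (!q) n ∧ u y = rp (!q) n ++ [q] ∧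
      u z = rp (!q) n ++ [q, !q]) := by
  refine Df.step (df_t1 M q x y) [.ngr (tv [] z) [q, q], .ngr (tv [] z) [q, !q, !q],
      .ge (tv [] z) (tg [q, !q]), .ge (tv [] z) (tv [] y), .nge (tv [] z) (tv [!q] y)]
      (fun u hu h => ?_) (fun u h => ?_) (fun u h => ?_)
  · obtain ⟨n, hx, hy⟩ := hu
    simp only [List.forall_mem_cons, Lit.Snd, tv_wd, tg_wd, List.nil_append, hy] at h
    exact ⟨n, hx, hy, t2_snd h.1 h.2.1 h.2.2.1 h.2.2.2.1 h.2.2.2.2.1⟩
  · obtain ⟨n, hx, hy, -⟩ := h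
    exact ⟨n, hx, hy⟩
  · obtain ⟨n, hx, hy, hz⟩ := h
    simp only [List.forall_mem_cons, Lit.Cmp, tv_wd, tg_wd, List.nil_append, hy, hz]
    obtain ⟨a, b, c, d, e⟩ := t2_cmp q n
    exact ⟨a, b, c, d, e, by simp⟩

/-- `x = p^n`, `y = p^n q`, `z = p^n q p`, `t = p^n q p q` -/
theorem df_t3 (M : Mdl) {γ : Type} (q : Bool) (x y z t : γ) :
    Df M γ (fun u => ∃ n, u x = rp (!q) n ∧ u y = rp (!q) n ++ [q] ∧
      u z = rp (!q) n ++ [q, !q] ∧ u t = rp (!q) n ++ [q, !q, q]) := by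
  refine Df.step (df_t2 M q x y z) [.ngr (tv [] t) [q, q, q], .ngr (tv [] t) [q, q, !q],
      .ngr (tv [] t) [q, !q, !q],
      .ge (tv [] t) (tg [q, !q, q]), .ge (tv [] t) (tv [] z), .nge (tv [] t) (tv [!q] z)]
      (fun u hu h => ?_) (fun u h => ?_) (fun u h => ?_)
  · obtain ⟨n, hx, hy, hz⟩ := hu
    simp only [List.forall_mem_cons, Lit.Snd, tv_wd, tg_wd, List.nil_append, hz] at h
    exact ⟨n, hx, hy, hz, t3_snd h.1 h.2.1 h.2.2.1 h.2.2.2.1 h.2.2.2.2.1 h.2.2.2.2.2.1⟩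
  · obtain ⟨n, hx, hy, hz, -⟩ := h
    exact ⟨n, hx, hy, hz⟩
  · obtain ⟨n, hx, hy, hz, ht⟩ := h
    simp only [List.forall_mem_cons, Lit.Cmp, tv_wd, tg_wd, List.nil_append, hz, ht]
    obtain ⟨a, b, c, d, e, f⟩ := t3_cmp q n
    exact ⟨a, b, c, d, e, f, by simp⟩

/-- `x = p^n`, `y = p^n q`, `z = p^n q q` -/
theorem df_tq (M : Mdl) {γ : Type} (q : Bool) (x y z : γ) :
    Df M γ (fun u => ∃ n, u x = rp (!q) n ∧ u y = rp (!q) n ++ [q] ∧
      u z = rp (!q) n ++ [q, q]) := by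
  refine Df.step (df_t1 M q x y) [.ngr (tv [] z) [q, !q], .ngr (tv [] z) [q, q, q],
      .ge (tv [] z) (tg [q, q]), .ge (tv [] z) (tv [] y), .nge (tv [] z) (tv [!q] y)]
      (fun u hu h => ?_) (fun u h => ?_) (fun u h => ?_)
  · obtain ⟨n, hx, hy⟩ := hu
    simp only [List.forall_mem_cons, Lit.Snd, tv_wd, tg_wd, List.nil_append, hy] at h
    exact ⟨n, hx, hy, tq_snd h.1 h.2.1 h.2.2.1 h.2.2.2.1 h.2.2.2.2.1⟩
  · obtain ⟨n, hx, hy, -⟩ := h
    exact ⟨n, hx, hy⟩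
  · obtain ⟨n, hx, hy, hz⟩ := h
    simp only [List.forall_mem_cons, Lit.Cmp, tv_wd, tg_wd, List.nil_append, hy, hz]
    obtain ⟨a, b, c, d, e⟩ := tq_cmp q n
    exact ⟨a, b, c, d, e, by simp⟩

/-- addition of lengths -/
theorem df_add (M : Mdl) {γ : Type} (q : Bool) (x y z : γ) :
    Df M γ (fun u => ∃ n m, 1 ≤ m ∧ u x = rp (!q) n ∧ u y = rp (!q) m ∧
      u z = rp (!q) (n + m)) := by
  -- auxiliary variables: 0 = p^n q, 1 = p^n q p, 2 = p^n q p^m q
  have h1 := (df_t2 M q (γ := γ ⊕ Fin 3) (Sum.inl x) (Sum.inr 0) (Sum.inr 1)).and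
    ((df_pure M (!q) (Sum.inl y)).and (df_pure M (!q) (Sum.inl z)))
  let w : γ ⊕ Fin 3 := Sum.inr 2
  have h2 : En M (γ ⊕ Fin 3) (fun u => ∃ n m, 1 ≤ m ∧ u (Sum.inl x) = rp (!q) n ∧
      u (Sum.inl y) = rp (!q) m ∧ u (Sum.inl z) = rp (!q) (n + m))
      (fun u => ∃ n m, 1 ≤ m ∧ u (Sum.inl x) = rp (!q) n ∧
      u (Sum.inl y) = rp (!q) m ∧ u (Sum.inl z) = rp (!q) (n + m) ∧
      u (Sum.inr 0) = rp (!q) n ++ [q] ∧ u (Sum.inr 1) = rp (!q) n ++ [q, !q] ∧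
      u w = rp (!q) n ++ q :: (rp (!q) m ++ [q])) := by
    refine En.step h1 [.ge (tv [] w) (tg [q, q]), .ngr (tv [] w) [q, q, q],
      .ngr (tv [] w) [q, q, !q], .ge (tv [] w) (tv [] (Sum.inr 1)),
      .nge (tv [] w) (tv [!q] (Sum.inr 1)), .ge (tv [] w) (tv [q] (Sum.inl y)),
      .nge (tv [] w) (tv [q, !q] (Sum.inl y)), .ge (tv [] w) (tv [] (Sum.inl z)),
      .nge (tv [] w) (tv [!q] (Sum.inl z))]
      (fun u hu h => ?_) (fun u h => ?_) (fun u h => ?_)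
    · obtain ⟨⟨n, hx, h0, h1⟩, ⟨m, hy⟩, ⟨k, hz⟩⟩ := hu
      simp only [List.forall_mem_cons, Lit.Snd, tv_wd, tg_wd, List.nil_append, hy, hz, h1] at h
      obtain ⟨a1, a2, a3, a4, a5, a6, a7, a8, a9, -⟩ := h
      obtain ⟨hm, hk⟩ := add_snd a1 a2 a3 a4 a5 a6 a7 a8 a9
      exact ⟨n, m, hm, hx, hy, by rw [hz, hk]⟩
    · obtain ⟨n, m, hm, hx, hy, hz, h0, h1, h2⟩ := h
      exact ⟨⟨n, hx, h0, h1⟩, ⟨m, hy⟩, ⟨n + m, hz⟩⟩
    · obtain ⟨n, m, hm, hx, hy, hz, h0, h1, h2⟩ := h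
      simp only [List.forall_mem_cons, Lit.Cmp, tv_wd, tg_wd, List.nil_append, hy, hz, h1, h2]
      obtain ⟨a1, a2, a3, a4, a5, a6, a7, a8, a9⟩ := add_cmp q n m hm
      exact ⟨a1, a2, a3, a4, a5, a6, a7, a8, a9, by simp⟩
  refine En.mono h2.ex (fun u h => ?_) (fun u h => ?_)
  · obtain ⟨t, n, m, h⟩ := h
    exact ⟨n, m, h⟩
  · obtain ⟨n, m, hm, hx, hy, hz⟩ := h
    exact ⟨![rp (!q) n ++ [q], rp (!q) n ++ [q, !q], rp (!q) n ++ q :: (rp (!q) m ++ [q])],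
      n, m, hm, hx, hy, hz, rfl, rfl, rfl⟩

/-- multiplication of lengths: `x = a^k`, `y = b^m`, `z = b^(m(k+1))` -/
theorem df_mul (M : Mdl) {γ : Type} (x y z : γ) :
    Df M γ (fun u => ∃ k m, 1 ≤ m ∧ u x = rp true k ∧ u y = rp false m ∧
      u z = rp false (m * (k + 1))) := by
  -- x, y, z; aux:
  -- 0: x1 = a^(k+1); 1: a^(k+1) b ; 2: a^(k+1) b a;  3,4,5: a^k b, a^k b a, a^k b a b
  -- 6,7: z a, z a b; 8 : z a a; 9: w = b^(M+m); 10, 11: w a, w a b; 12 : s; 13: d; 14: v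
  let X : γ ⊕ Fin 15 := Sum.inl x
  let Y : γ ⊕ Fin 15 := Sum.inl y
  let Z : γ ⊕ Fin 15 := Sum.inl z
  let A : Fin 15 → γ ⊕ Fin 15 := Sum.inr
  have g0 := df_eq M (tv [true] X) (tv [] (A 0))
  have g1 : Df M (γ ⊕ Fin 15) (fun u => ∃ n, u (A 0) = rp true n ∧
      u (A 1) = rp true n ++ [false] ∧ u (A 2) = rp true n ++ [false, true]) :=
    df_t2 M false (A 0) (A 1) (A 2)
  have g2 : Df M (γ ⊕ Fin 15) (fun u => ∃ n, u X = rp true n ∧
      u (A 3) = rp true n ++ [false] ∧ u (A 4) = rp true n ++ [false, true] ∧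
      u (A 5) = rp true n ++ [false, true, false]) :=
    df_t3 M false X (A 3) (A 4) (A 5)
  have g3 : Df M (γ ⊕ Fin 15) (fun u => ∃ n, u Z = rp false n ∧
      u (A 6) = rp false n ++ [true] ∧ u (A 7) = rp false n ++ [true, false]) :=
    df_t2 M true Z (A 6) (A 7)
  have g4 : Df M (γ ⊕ Fin 15) (fun u => ∃ n, u Z = rp false n ∧
      u (A 6) = rp false n ++ [true] ∧ u (A 8) = rp false n ++ [true, true]) :=
    df_tq M true Z (A 6) (A 8)
  have g5 : Df M (γ ⊕ Fin 15) (fun u => ∃ n m, 1 ≤ m ∧ u Z = rp false n ∧ u Y = rp false m ∧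
      u (A 9) = rp false (n + m)) :=
    df_add M true Z Y (A 9)
  have g6 : Df M (γ ⊕ Fin 15) (fun u => ∃ n, u (A 9) = rp false n ∧
      u (A 10) = rp false n ++ [true] ∧ u (A 11) = rp false n ++ [true, false]) :=
    df_t2 M true (A 9) (A 10) (A 11)
  have g := g0.and (g1.and (g2.and (g3.and (g4.and (g5.and g6)))))
  let s : Tr (γ ⊕ Fin 15) := tv [] (A 12)
  let d : Tr (γ ⊕ Fin 15) := tv [] (A 13)
  let v : Tr (γ ⊕ Fin 15) := tv [] (A 14)
  have h2 : En M (γ ⊕ Fin 15) (fun u => ∃ k m, 1 ≤ m ∧ u X = rp true k ∧ u Y = rp false m ∧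
      u Z = rp false (m * (k + 1)))
      (fun u => ∃ k m, 1 ≤ m ∧ u X = rp true k ∧ u Y = rp false m ∧
        u Z = rp false (m * (k + 1)) ∧
        u (A 0) = rp true (k + 1) ∧ u (A 1) = rp true (k + 1) ++ [false] ∧
        u (A 2) = rp true (k + 1) ++ [false, true] ∧
        u (A 3) = rp true k ++ [false] ∧ u (A 4) = rp true k ++ [false, true] ∧
        u (A 5) = rp true k ++ [false, true, false] ∧
        u (A 6) = rp false (m * (k + 1)) ++ [true] ∧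
        u (A 7) = rp false (m * (k + 1)) ++ [true, false] ∧
        u (A 8) = rp false (m * (k + 1)) ++ [true, true] ∧
        u (A 9) = rp false (m * (k + 1) + m) ∧
        u (A 10) = rp false (m * (k + 1) + m) ++ [true] ∧
        u (A 11) = rp false (m * (k + 1) + m) ++ [true, false] ∧
        u (A 12) = blk m (k + 1) ++ [false] ∧
        u (A 13) = blk m (k + 1) ++ [true, false] ∧
        u (A 14) = blk m (k + 2) ++ [false]) := by
    refine En.step g [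
      .ge s (tv [] (A 1)),
      .nge s (tv [true] (A 0)),
      .ge s (tv [] (A 7)),
      .nge s (tv [false] (A 6)),
      .ge s (tv [] (A 5)),
      .ge v (tv [true] (A 1)),
      .nge v (tv [true, true] (A 0)),
      .ge v (tv [] (A 11)),
      .nge v (tv [false] (A 10)),
      .ge v (tv [true] (A 7)),
      .nge v (tv [true, false] (A 6)),
      .ge v (tv [true] (A 12)),
      .ge d s,
      .ge d (tv [true] (A 1)),
      .nge d (tv [true, true] (A 0)),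
      .nge d (tv [false] (A 6)),
      .nge d (tv [] (A 2)),
      .ge v d,
      .nge v (tv [false] (A 8))]
      (fun u hu h => ?_) (fun u h => ?_) (fun u h => ?_)
    · obtain ⟨e0, ⟨n1, e1a, e1b, e1c⟩, ⟨n2, e2a, e2b, e2c, e2d⟩, ⟨n3, e3a, e3b, e3c⟩,
        ⟨n4, e4a, e4b, e4c⟩, ⟨n5, m, hm, e5a, e5b, e5c⟩, ⟨n6, e6a, e6b, e6c⟩⟩ := hu
      have i1 : n1 = n2 + 1 := by
        simp only [tv_wd, List.nil_append] at e0
        rw [e2a, e1a] at e0
        have := congrArg List.length e0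
        simp at this
        omega
      have i4 : n4 = n3 := by
        rw [e3a] at e4a
        exact (rp_inj e4a).symm
      have i5 : n5 = n3 := by
        rw [e3a] at e5a
        exact (rp_inj e5a).symm
      subst i1 i4 i5
      have i6 : n6 = n5 + m := by
        rw [e5c] at e6a
        exact (rp_inj e6a).symm
      subst i6
      simp only [List.forall_mem_cons, Lit.Snd, tv_wd, tg_wd, List.nil_append, e1a, e1b, e1c,
        e2a, e2b, e2c, e2d, e3a, e3b, e3c, e4c, e5b, e5c, e6b, e6c, s, d, v] at h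
      obtain ⟨a1, a2, a3, a4, a5, a6, a7, a8, a9, a10, a11, a12, a13, a14, a15, a16, a17, a18,
        a19, -⟩ := h
      have := mul_snd a1 a2 a3 a4 a5 a6 a7 a8 a9 a10 a11 a12 a13 a14 a15 a16 a17 a18 a19
      exact ⟨n2, m, hm, e2a, e5b, by rw [e3a, this]⟩
    · obtain ⟨k, m, hm, hX, hY, hZ, h0, h1, h2, h3, h4, h5, h6, h7, h8, h9, h10, h11, -, -, -⟩ := h
      refine ⟨?_, ⟨k + 1, h0, h1, h2⟩, ⟨k, hX, h3, h4, h5⟩, ⟨_, hZ, h6, h7⟩, ⟨_, hZ, h6, h8⟩,
        ⟨_, m, hm, hZ, hY, h9⟩, ⟨_, h9, h10, h11⟩⟩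
      simp only [tv_wd, List.nil_append]
      rw [hX, h0, rp_succ]
      rfl
    · obtain ⟨k, m, hm, hX, hY, hZ, h0, h1, h2, h3, h4, h5, h6, h7, h8, h9, h10, h11, h12, h13,
        h14⟩ := h
      simp only [List.forall_mem_cons, Lit.Cmp, tv_wd, tg_wd, List.nil_append, h0, h1, h2, h5,
        h6, h7, h8, h10, h11, s, d, v]
      obtain ⟨a1, a2, a3, a4, a5, a6, a7, a8, a9, a10, a11, a12, a13, a14, a15, a16, a17, a18,
        a19⟩ := mul_cmp hm _ rfl _ _ _ h12 h13 h14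
      exact ⟨a1, a2, a3, a4, a5, a6, a7, a8, a9, a10, a11, a12, a13, a14, a15, a16, a17, a18,
        a19, by simp⟩
  refine En.mono h2.ex (fun u h => ?_) (fun u h => ?_)
  · obtain ⟨t, k, m, h⟩ := h
    exact ⟨k, m, h⟩
  · obtain ⟨k, m, hm, hx, hy, hz⟩ := h
    exact ⟨![rp true (k + 1), rp true (k + 1) ++ [false], rp true (k + 1) ++ [false, true],
      rp true k ++ [false], rp true k ++ [false, true], rp true k ++ [false, true, false],
      rp false (m * (k + 1)) ++ [true], rp false (m * (k + 1)) ++ [true, false],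
      rp false (m * (k + 1)) ++ [true, true], rp false (m * (k + 1) + m),
      rp false (m * (k + 1) + m) ++ [true], rp false (m * (k + 1) + m) ++ [true, false],
      blk m (k + 1) ++ [false], blk m (k + 1) ++ [true, false], blk m (k + 2) ++ [false]],
      k, m, hm, hx, hy, hz, rfl, rfl, rfl, rfl, rfl, rfl, rfl, rfl, rfl, rfl, rfl, rfl, rfl,
      rfl, rfl⟩

end Pool.Agent.K4H87.RPO
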