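import Pool.Agent.K4H87.RPO.Inst

/-! Chain-like terms are recognised by finitely many ground comparisons. -/

set_option autoImplicit false

namespace Pool.Agent.K4H87.RPO

variable {q : ℕ} {ar : Fin q → ℕ} {prec : Fin q → Fin q → Prop} {st : Fin q → Bool} {κ : Fin q}
  {F : Bool → Fin q} {gt : Tm ar → Tm ar → Prop}

namespace Hyp

variable (H : Hyp ar prec st κ F)

/-- the ordered set as an abstract model -/
noncomputable def mdl (hg : IsRPO ar prec st gt) : Mdl where
  T := Tm ar
  gt := gt
  app := H.appP
  K := H.kk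
  Ok := H.Ok
  sk := H.sk
  okK := H.okK
  okapp := H.ok_appP
  skK := H.sk_kk
  skapp := fun p x _ => H.sk_appP p x
  a1 := fun _ t hs ht h => H.a1 hg hs t ht h
  a2 := fun _ t p hs ht h => H.a2 hg hs t ht p h
  a3 := fun _ v hs h => H.a3 hg hs v h

/-- top symbols of non-constant chain-like terms -/
def Top (h : Fin q) : Prop := H.InL h ∨ ∃ p, h = F p

/-- smallest term with a given top symbol -/
def mt (h : Fin q) : Tm ar := Tm.app h (fun _ => H.kk)

/-- excluded ground terms -/
def G : Set (Tm ar) :=
  {t | ∃ o, o ≠ κ ∧ ¬ H.Top o ∧ t = H.mt o} ∪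
  {t | ∃ (p : Bool) (i : Fin (ar (F p))) (h : Fin q), i ≠ lst (H.pos p) ∧ H.Top h ∧
    t = Tm.app (F p) (fun j => if j = i then H.mt h else H.kk)}

theorem G_finite : H.G.Finite := by
  apply Set.Finite.union
  · apply Set.Finite.subset (Set.finite_range (fun o => H.mt o))
    rintro t ⟨o, _, _, rfl⟩
    exact ⟨o, rfl⟩
  · apply Set.Finite.subset (Set.finite_range (fun z : (p : Bool) × (Fin (ar (F p)) × Fin q) =>
      (Tm.app (F z.1) (fun j => if j = z.2.1 then H.mt z.2.2 else H.kk) : Tm ar)))
    rintro t ⟨p, i, h, _, _, rfl⟩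
    exact ⟨⟨p, i, h⟩, rfl⟩

theorem top_of_ok {h : Fin q} {a : Fin (ar h) → Tm ar} (ho : H.Ok (Tm.app h a)) (hne : h ≠ κ) :
    H.Top h := by
  cases ho with
  | K a => exact absurd rfl hne
  | L h a hh _ => exact Or.inl hh
  | P p a _ _ => exact Or.inr ⟨p, rfl⟩

theorem ge_mt (hg : IsRPO ar prec st gt) {h : Fin q} {a : Fin (ar h) → Tm ar}
    (ho : ∀ i, H.Ok (a i)) : gt (Tm.app h a) (H.mt h) ∨ Tm.app h a = H.mt h :=
  mono_args H.irr hg a _ (fun i => H.ok_ge_kk hg (ho i))

theorem ok_of_G (hg : IsRPO ar prec st gt) (x : Tm ar)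
    (hx : ∀ t ∈ H.G, ¬ (gt x t ∨ x = t)) : H.Ok x := by
  induction x with
  | app h a ih =>
    have ha : ∀ i, H.Ok (a i) := fun i => ih i (fun t ht hc => hx t ht (Or.inl (gt_arg hg a t i hc)))
    by_cases hκ : h = κ
    · subst hκ
      exact Ok.K a
    · by_cases ht : H.Top h
      · rcases ht with ht | ⟨p, rfl⟩
        · exact Ok.L h a ht ha
        · refine Ok.P p a ha (fun i hi => ?_)
          by_contra hc
          -- `a i` has a top symbol
          cases hai : a i with
          | app h' a' =>
            have hok : H.Ok (Tm.app h' a') := hai ▸ ha i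
            have hne : h' ≠ κ := by
              rintro rfl
              rw [hai, H.eq_kk] at hc
              exact hc rfl
            have htop := H.top_of_ok hok hne
            refine hx (Tm.app (F p) (fun j => if j = i then H.mt h' else H.kk))
              (Or.inr ⟨p, i, h', hi, htop, rfl⟩) (mono_args H.irr hg _ _ (fun j => ?_))
            by_cases hj : j = i
            · subst hj
              rw [if_pos rfl, hai]
              exact H.ge_mt hg (fun k => H.ok_args hok k)
            · rw [if_neg hj]
              exact H.ok_ge_kk hg (ha j)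
      · exact absurd (H.ge_mt hg ha) (hx _ (Or.inl ⟨h, hκ, ht, rfl⟩))

theorem mt_ok {h : Fin q} (ht : H.Top h) : H.Ok (H.mt h) := by
  rcases ht with ht | ⟨p, rfl⟩
  · exact Ok.L h _ ht (fun _ => H.okK)
  · exact Ok.P p _ (fun _ => H.okK) (fun _ _ => rfl)

theorem mt_ne {h : Fin q} (ht : H.Top h) : H.mt h ≠ H.kk := by
  intro e
  unfold mt kk at e
  injection e with e1 e2
  rcases ht with ht | ⟨p, rfl⟩
  · exact H.inL_neκ ht e1
  · exact H.ne_κ p e1

theorem kk_not_G (hg : IsRPO ar prec st gt) : ∀ t ∈ H.G, ¬ (gt H.kk t ∨ H.kk = t) := by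
  rintro t (⟨o, ho, hT, rfl⟩ | ⟨p, i, h, hi, hT, rfl⟩)
  · rintro (hc | hc)
    · obtain ⟨h1, h2⟩ := H.kk_gt hg hc
      have h3 := H.hmin o h1
      exact H.kk_not_gt hg H.okK (h2 ⟨0, by omega⟩)
    · rw [kk, mt] at hc
      injection hc with e1 e2
      exact ho e1.symm
  · rintro (hc | hc)
    · obtain ⟨h1, h2⟩ := H.kk_gt hg hc
      have h3 := h2 (lst (H.pos p))
      rw [if_neg hi.symm] at h3
      exact H.kk_not_gt hg H.okK h3
    · rw [kk] at hc
      injection hc with e1 e2
      exact H.ne_κ p e1.symm

theorem ok_clean (v : Wd) : H.Ok (v.foldr H.appP H.kk) := by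
  induction v with
  | nil => exact H.okK
  | cons p v ih => exact H.ok_appP p _ ih

theorem clean_not_G (hg : IsRPO ar prec st gt) (v : Wd) :
    ∀ t ∈ H.G, ¬ (gt (v.foldr H.appP H.kk) t ∨ v.foldr H.appP H.kk = t) := by
  induction v with
  | nil => exact H.kk_not_G hg
  | cons r v ih =>
    have hargs : ∀ t ∈ H.G, ¬ ∃ i : Fin (ar (F r)),
        (gt (if (i : ℕ) + 1 = ar (F r) then v.foldr H.appP H.kk else H.kk) t ∨
          Eqv ar st (if (i : ℕ) + 1 = ar (F r) then v.foldr H.appP H.kk else H.kk) t) := by
      rintro t ht ⟨i, hi⟩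
      by_cases h : (i : ℕ) + 1 = ar (F r)
      · rw [if_pos h] at hi
        rcases hi with hi | hi
        · exact ih t ht (Or.inl hi)
        · exact ih t ht (Or.inr (H.eqv_eq hi (Or.inl (H.ok_clean v))))
      · rw [if_neg h] at hi
        rcases hi with hi | hi
        · exact H.kk_not_G hg t ht (Or.inl hi)
        · exact H.kk_not_G hg t ht (Or.inr (H.eqv_eq hi (Or.inl H.okK)))
    intro t ht
    have ht' := hargs t ht
    rw [List.foldr_cons, appP]
    rcases ht with ⟨o, ho, hT, rfl⟩ | ⟨p, i, h, hi, hT, rfl⟩
    · have hne : F r ≠ o := fun e => hT (Or.inr ⟨r, e.symm⟩)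
      rintro (hc | hc)
      · rw [mt, gt_diff hg hne] at hc
        rcases hc with hc | ⟨hp, -⟩
        · exact ht' hc
        · rcases H.hbelow r o hp with h | h
          · exact ho h
          · apply hT
            refine Or.inl ⟨h, ?_⟩
            cases r
            · exact (H.hL o h).2 hp
            · exact hp
      · rw [mt] at hc
        injection hc with e1 e2
        exact hne e1
    · by_cases e : r = p
      · subst e
        have hil : ¬ ((i : ℕ) + 1 = ar (F r)) := fun e => hi ((eq_lst _ _).2 e)
        rintro (hc | hc)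
        · rw [gt_same H.irr hg] at hc
          rcases hc with hc | ⟨-, hx⟩
          · exact ht' hc
          · rcases hx with ⟨-, j, hj1, hj2⟩ | ⟨hs, -⟩
            · by_cases hj : j = lst (H.pos r)
              · have h1 : i < j := by
                  rw [hj, Fin.lt_def]
                  simp only [lst]
                  have := i.2
                  omega
                have h2 := hj1 i h1
                beta_reduce at h2
                rw [if_neg hil, if_pos rfl] at h2
                exact H.mt_ne hT (H.eqv_eq h2 (Or.inl H.okK)).symm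
              · beta_reduce at hj2
                rw [if_neg (fun h => hj ((eq_lst _ _).2 h))] at hj2
                by_cases hji : j = i
                · rw [if_pos hji] at hj2
                  exact H.kk_not_gt hg (H.mt_ok hT) hj2
                · rw [if_neg hji] at hj2
                  exact H.kk_not_gt hg H.okK hj2
            · rcases H.hF r with h1 | h1
              · exact hi (eq_lst_one h1 i)
              · rw [hs] at h1
                exact absurd h1.2 (by decide)
        · injection hc with e1 e2
          have h2 := congrFun e2 i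
          rw [if_neg hil, if_pos rfl] at h2
          exact H.mt_ne hT h2.symm
      · rintro (hc | hc)
        · rw [gt_diff hg (fun e' => e (H.hne _ _ e'))] at hc
          rcases hc with hc | ⟨hp, -⟩
          · exact ht' hc
          · exact H.hinc _ _ hp
        · injection hc with e1 e2
          exact e (H.hne _ _ e1)

theorem exists_ground (hg : IsRPO ar prec st gt) : ∃ G : List (Tm ar),
    (∀ x, (∀ t ∈ G, ¬ (gt x t ∨ x = t)) → H.Ok x) ∧
    ∀ v : Wd, ∀ t ∈ G, ¬ (gt (v.foldr H.appP H.kk) t ∨ v.foldr H.appP H.kk = t) := by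
  refine ⟨H.G_finite.toFinset.toList, fun x hx => H.ok_of_G hg x (fun t ht => hx t (by simpa)),
    fun v t ht => H.clean_not_G hg v t (by simpa using ht)⟩

end Hyp

end Pool.Agent.K4H87.RPO
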