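import Pool.Agent.K4H87.RPO.Uniq
import Pool.Agent.K4H87.RPO.Arith

/-! The recursive path ordering on chain-like terms over two incomparable symbols. -/

set_option autoImplicit false

namespace Pool.Agent.K4H87.RPO

variable {q : ℕ}

/-- The situation: `F true`, `F false` are incomparable symbols with the same unary symbols
below. -/
structure Hyp (ar : Fin q → ℕ) (prec : Fin q → Fin q → Prop) (st : Fin q → Bool) (κ : Fin q)
    (F : Bool → Fin q) : Prop where
  irr : ∀ h, ¬ prec h h
  tr : ∀ a b c, prec a b → prec b c → prec a c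
  hκ : ar κ = 0
  hmin : ∀ c, prec κ c → ar c ≠ 0
  hF : ∀ p, ar (F p) = 1 ∨ (2 ≤ ar (F p) ∧ st (F p) = false)
  hne : ∀ p r, F p = F r → p = r
  hinc : ∀ p r, ¬ prec (F p) (F r)
  hbelow : ∀ p h, prec (F p) h → h = κ ∨ ar h = 1
  hL : ∀ h, ar h = 1 → (prec (F true) h ↔ prec (F false) h)

variable {ar : Fin q → ℕ} {prec : Fin q → Fin q → Prop} {st : Fin q → Bool} {κ : Fin q}
  {F : Bool → Fin q} {gt : Tm ar → Tm ar → Prop}

section gen

theorem gt_same (irr : ∀ h, ¬ prec h h) (hg : IsRPO ar prec st gt) (f : Fin q)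
    (a b : Fin (ar f) → Tm ar) : gt (Tm.app f a) (Tm.app f b) ↔
      (∃ i, gt (a i) (Tm.app f b) ∨ Eqv ar st (a i) (Tm.app f b)) ∨
      ((∀ j, gt (Tm.app f a) (b j)) ∧ Ext (Eqv ar st) gt (st f) a b) := by
  rw [hg f a]
  refine or_congr Iff.rfl ?_
  constructor
  · rintro (⟨g, b', e, hp, -⟩ | ⟨b', e, hj, hx⟩)
    · injection e with e1 e2
      subst e1
      exact absurd hp (irr _)
    · injection e with e1 e2
      rw [e2]
      rw [e2] at *
      exact ⟨hj, hx⟩
  · rintro ⟨hj, hx⟩
    exact Or.inr ⟨b, rfl, hj, hx⟩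

theorem gt_diff (hg : IsRPO ar prec st gt) {f g : Fin q} (hfg : f ≠ g)
    (a : Fin (ar f) → Tm ar) (b : Fin (ar g) → Tm ar) : gt (Tm.app f a) (Tm.app g b) ↔
      (∃ i, gt (a i) (Tm.app g b) ∨ Eqv ar st (a i) (Tm.app g b)) ∨
      (prec f g ∧ ∀ j, gt (Tm.app f a) (b j)) := by
  rw [hg f a]
  refine or_congr Iff.rfl ?_
  constructor
  · rintro (⟨g', b', e, hp, hj⟩ | ⟨b', e, hj, hx⟩)
    · injection e with e1 e2
      subst e1
      obtain rfl := eq_of_heq e2
      exact ⟨hp, hj⟩
    · injection e with e1 e2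
      exact absurd e1.symm hfg
  · rintro ⟨hp, hj⟩
    exact Or.inl ⟨g, b, rfl, hp, hj⟩

theorem gt_arg (hg : IsRPO ar prec st gt) {f : Fin q} (a : Fin (ar f) → Tm ar) (t : Tm ar)
    (i : Fin (ar f)) (h : gt (a i) t ∨ a i = t) : gt (Tm.app f a) t := by
  rw [hg f a]
  refine Or.inl ⟨i, ?_⟩
  rcases h with h | h
  · exact Or.inl h
  · rw [h]
    exact Or.inr (Eqv.refl _)

/-- monotonicity in the arguments -/
theorem mono_args (irr : ∀ h, ¬ prec h h) (hg : IsRPO ar prec st gt) {f : Fin q}
    (a b : Fin (ar f) → Tm ar) (h : ∀ i, gt (a i) (b i) ∨ a i = b i) :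
    gt (Tm.app f a) (Tm.app f b) ∨ Tm.app f a = Tm.app f b := by
  classical
  by_cases hab : ∀ i, a i = b i
  · right
    rw [funext hab]
  · left
    rw [gt_same irr hg]
    right
    refine ⟨fun j => gt_arg hg a _ j (h j), ?_⟩
    push Not at hab
    unfold Ext
    rcases Bool.eq_false_or_eq_true (st f) with hs | hs
    · right
      refine ⟨hs, 1, Finset.univ.filter (fun i => a i ≠ b i), ?_, ?_, ?_⟩
      · obtain ⟨i, hi⟩ := hab
        exact ⟨i, by simp [hi]⟩
      · intro i hi
        simp at hi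
        rw [hi]
        exact Eqv.refl _
      · intro i hi
        simp at hi
        refine ⟨i, by simp [hi], ?_⟩
        rcases h i with h | h
        · exact h
        · exact absurd h hi
    · left
      refine ⟨hs, ?_⟩
      have hne : (Finset.univ.filter (fun i => a i ≠ b i)).Nonempty := by
        obtain ⟨i, hi⟩ := hab
        exact ⟨i, by simp [hi]⟩
      let i := (Finset.univ.filter (fun i => a i ≠ b i)).min' hne
      have hi : i ∈ Finset.univ.filter (fun i => a i ≠ b i) := Finset.min'_mem _ hne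
      refine ⟨i, fun j hj => ?_, ?_⟩
      · by_contra hc
        have hj' : j ∈ Finset.univ.filter (fun i => a i ≠ b i) := by
          simp
          intro e
          apply hc
          rw [e]
          exact Eqv.refl _
        have := Finset.min'_le _ j hj'
        exact absurd hj (not_lt.2 this)
      · simp at hi
        rcases h i with h | h
        · exact h
        · exact absurd h hi

end gen

/-- the last index -/
def lst {n : ℕ} (h : 0 < n) : Fin n := ⟨n - 1, by omega⟩

theorem eq_lst {n : ℕ} (h : 0 < n) (i : Fin n) : i = lst h ↔ (i : ℕ) + 1 = n := by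
  rw [Fin.ext_iff]
  have := i.2
  simp only [lst]
  omega

theorem eq_lst_one {n : ℕ} (h : n = 1) (i : Fin n) : i = lst (by omega) := by
  rw [eq_lst]
  have := i.2
  omega

namespace Hyp

variable (H : Hyp ar prec st κ F)
include H

theorem pos (p : Bool) : 0 < ar (F p) := by
  rcases H.hF p with h | h <;> omega

/-- the constant -/
def kk : Tm ar := Tm.app κ (fun i => (Fin.cast H.hκ i).elim0)

theorem eq_kk (a : Fin (ar κ) → Tm ar) : Tm.app κ a = H.kk := by
  unfold kk
  congr 1
  funext i
  exact (Fin.cast H.hκ i).elim0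

theorem ne_κ (p : Bool) : F p ≠ κ := by
  intro h
  have := H.pos p
  rw [h, H.hκ] at this
  exact absurd this (lt_irrefl _)

/-- unary symbols below both `F true` and `F false` -/
def InL (_ : Hyp ar prec st κ F) (h : Fin q) : Prop := ar h = 1 ∧ prec (F true) h

theorem inL_prec {h : Fin q} (hh : H.InL h) (p : Bool) : prec (F p) h := by
  cases p
  · exact (H.hL h hh.1).1 hh.2
  · exact hh.2

theorem inL_ne {h : Fin q} (hh : H.InL h) (p : Bool) : h ≠ F p := by
  rintro rfl
  exact H.hinc true p hh.2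

theorem inL_neκ {h : Fin q} (hh : H.InL h) : h ≠ κ := by
  rintro rfl
  have := hh.1
  rw [H.hκ] at this
  omega

/-- letter application -/
def appP (p : Bool) (x : Tm ar) : Tm ar :=
  Tm.app (F p) (fun i => if (i : ℕ) + 1 = ar (F p) then x else H.kk)

/-- chain-like terms -/
inductive Ok : Tm ar → Prop
  | K (a : Fin (ar κ) → Tm ar) : Ok (Tm.app κ a)
  | L (h : Fin q) (a : Fin (ar h) → Tm ar) : H.InL h → (∀ i, Ok (a i)) → Ok (Tm.app h a)
  | P (p : Bool) (a : Fin (ar (F p)) → Tm ar) : (∀ i, Ok (a i)) →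
      (∀ i, i ≠ lst (H.pos p) → a i = H.kk) → Ok (Tm.app (F p) a)

theorem okK : H.Ok H.kk := Ok.K _

theorem ok_appP (p : Bool) (x : Tm ar) (hx : H.Ok x) : H.Ok (H.appP p x) := by
  refine Ok.P p _ (fun i => ?_) (fun i hi => ?_)
  · by_cases h : (i : ℕ) + 1 = ar (F p)
    · simp [h, hx]
    · simp [h, H.okK]
  · rw [Ne, eq_lst] at hi
    simp [hi]

theorem ok_args {h : Fin q} {a : Fin (ar h) → Tm ar} (ho : H.Ok (Tm.app h a)) (i : Fin (ar h)) :
    H.Ok (a i) := by
  cases ho with
  | K a => exact (Fin.cast H.hκ i).elim0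
  | L h a _ ha => exact ha i
  | P p a ha _ => exact ha i

theorem ok_good {h : Fin q} {a : Fin (ar h) → Tm ar} (ho : H.Ok (Tm.app h a)) :
    ar h ≤ 1 ∨ (2 ≤ ar h ∧ st h = false) := by
  cases ho with
  | K a => left; rw [H.hκ]; omega
  | L h a hh ha => left; rw [hh.1]
  | P p a ha _ =>
    rcases H.hF p with h | h
    · left; omega
    · right; exact h

theorem eqv_eq {s t : Tm ar} (h : Eqv ar st s t) : (H.Ok s ∨ H.Ok t) → s = t := by
  induction h with
  | refl s => exact fun _ => rfl
  | symm _ ih => exact fun h => (ih h.symm).symm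
  | trans _ _ ih1 ih2 =>
    rintro (h | h)
    · have e := ih1 (Or.inl h)
      subst e
      exact ih2 (Or.inl h)
    · have e := ih2 (Or.inr h)
      subst e
      exact ih1 (Or.inr h)
  | congr f a b _ ih =>
    rintro (h | h)
    · rw [funext fun i => ih i (Or.inl (H.ok_args h i))]
    · rw [funext fun i => ih i (Or.inr (H.ok_args h i))]
  | perm f a σ hs =>
    intro h
    have h1 : ar f ≤ 1 := by
      rcases h with h | h
      · rcases H.ok_good h with h | h
        · exact h
        · rw [hs] at h; exact absurd h.2 (by decide)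
      · rcases H.ok_good h with h | h
        · exact h
        · rw [hs] at h; exact absurd h.2 (by decide)
    congr 1
    funext i
    congr 1
    apply Fin.ext
    have := i.2
    have := (σ i).2
    omega

/-- skeleton of a term -/
noncomputable def sk (H : Hyp ar prec st κ F) : Tm ar → Wd
  | .app h a => (if h = F true then [true] else if h = F false then [false] else []) ++
      (if h0 : 0 < ar h then sk H (a (lst h0)) else [])

theorem sk_K (a : Fin (ar κ) → Tm ar) : H.sk (Tm.app κ a) = [] := by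
  rw [sk, if_neg (fun e => H.ne_κ true e.symm), if_neg (fun e => H.ne_κ false e.symm), dif_neg]
  · rfl
  · rw [H.hκ]; omega

theorem sk_kk : H.sk H.kk = [] := H.sk_K _

theorem sk_L {h : Fin q} (hh : H.InL h) (a : Fin (ar h) → Tm ar) (i : Fin (ar h)) :
    H.sk (Tm.app h a) = H.sk (a i) := by
  rw [sk, if_neg (H.inL_ne hh true), if_neg (H.inL_ne hh false), dif_pos (by rw [hh.1]; omega),
    List.nil_append, ← eq_lst_one hh.1 i]

theorem sk_P (p : Bool) (a : Fin (ar (F p)) → Tm ar) :
    H.sk (Tm.app (F p) a) = p :: H.sk (a (lst (H.pos p))) := by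
  rw [sk, dif_pos (H.pos p)]
  cases p
  · rw [if_neg (fun e => absurd (H.hne _ _ e) (by decide)), if_pos rfl]
    rfl
  · rw [if_pos rfl]
    rfl

theorem sk_appP (p : Bool) (x : Tm ar) : H.sk (H.appP p x) = p :: H.sk x := by
  rw [appP, H.sk_P, if_pos]
  exact (eq_lst (H.pos p) _).1 rfl

theorem sk_arg {h : Fin q} {a : Fin (ar h) → Tm ar} (ho : H.Ok (Tm.app h a)) (i : Fin (ar h)) :
    (H.sk (a i)).Sublist (H.sk (Tm.app h a)) := by
  cases ho with
  | K a => exact (Fin.cast H.hκ i).elim0
  | L h a hh ha => rw [H.sk_L hh a i]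
  | P p a ha hk =>
    rw [H.sk_P]
    by_cases hi : i = lst (H.pos p)
    · rw [hi]
      exact List.sublist_cons_self _ _
    · rw [hk i hi, H.sk_kk]
      exact List.nil_sublist _

theorem kk_gt (hg : IsRPO ar prec st gt) {g : Fin q} {b : Fin (ar g) → Tm ar}
    (h : gt H.kk (Tm.app g b)) : prec κ g ∧ ∀ j, gt H.kk (b j) := by
  by_cases e : κ = g
  · subst e
    rw [kk, gt_same H.irr hg] at h
    exfalso
    rcases h with ⟨i, _⟩ | ⟨_, ⟨_, i, _⟩ | ⟨_, _, X, ⟨i, _⟩, _⟩⟩
    · exact (Fin.cast H.hκ i).elim0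
    · exact (Fin.cast H.hκ i).elim0
    · exact (Fin.cast H.hκ i).elim0
  · rw [kk, gt_diff hg e] at h
    rcases h with ⟨i, _⟩ | h
    · exact (Fin.cast H.hκ i).elim0
    · exact h

theorem kk_not_gt (hg : IsRPO ar prec st gt) {t : Tm ar} (ht : H.Ok t) : ¬ gt H.kk t := by
  induction ht with
  | K a => exact fun h => H.irr _ (H.kk_gt hg h).1
  | L h a hh ha ih => exact fun h' => ih (lst (by rw [hh.1]; omega)) ((H.kk_gt hg h').2 _)
  | P p a ha hk ih => exact fun h' => ih (lst (H.pos p)) ((H.kk_gt hg h').2 _)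

theorem ok_ge_kk (hg : IsRPO ar prec st gt) {s : Tm ar} (hs : H.Ok s) :
    gt s H.kk ∨ s = H.kk := by
  induction hs with
  | K a => exact Or.inr (H.eq_kk a)
  | L h a hh ha ih => exact Or.inl (gt_arg hg a _ (lst (by rw [hh.1]; omega)) (ih _))
  | P p a ha hk ih => exact Or.inl (gt_arg hg a _ (lst (H.pos p)) (ih _))

theorem ext_last (hg : IsRPO ar prec st gt) {h : Fin q} {a b : Fin (ar h) → Tm ar}
    (ha : H.Ok (Tm.app h a)) (hb : H.Ok (Tm.app h b)) (h0 : 0 < ar h)
    (hx : Ext (Eqv ar st) gt (st h) a b) : gt (a (lst h0)) (b (lst h0)) := by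
  rcases H.ok_good ha with h1 | ⟨h2, h3⟩
  · have h1 : ar h = 1 := by omega
    rcases hx with ⟨_, i, _, hi⟩ | ⟨_, σ, X, ⟨i, hi⟩, _, hX⟩
    · rwa [eq_lst_one h1 i] at hi
    · obtain ⟨k, -, hk⟩ := hX i hi
      rwa [eq_lst_one h1 k, eq_lst_one h1 (σ i)] at hk
  · rcases hx with ⟨_, i, _, hi⟩ | ⟨h4, _⟩
    · by_cases hil : i = lst h0
      · rwa [hil] at hi
      · exfalso
        cases ha with
        | K a => rw [H.hκ] at h0; omega
        | L h a hh ha => rw [hh.1] at h2; omega
        | P p a ha hk =>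
          rw [hk i hil] at hi
          exact H.kk_not_gt hg (H.ok_args hb i) hi
    · rw [h3] at h4
      exact absurd h4 (by decide)

theorem sk_of_arg {h : Fin q} {a : Fin (ar h) → Tm ar} (ho : H.Ok (Tm.app h a)) {t : Tm ar}
    (iha : ∀ i, ∀ t, H.Ok t → gt (a i) t → (H.sk t).Sublist (H.sk (a i))) (ht : H.Ok t)
    (hc : ∃ i, gt (a i) t ∨ Eqv ar st (a i) t) : (H.sk t).Sublist (H.sk (Tm.app h a)) := by
  obtain ⟨i, hi⟩ := hc
  refine List.Sublist.trans ?_ (H.sk_arg ho i)
  rcases hi with hi | hi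
  · exact iha i t ht hi
  · rw [H.eqv_eq hi (Or.inr ht)]

theorem a1 (hg : IsRPO ar prec st gt) {s : Tm ar} (hs : H.Ok s) :
    ∀ t, H.Ok t → gt s t → (H.sk t).Sublist (H.sk s) := by
  induction hs with
  | K a =>
    intro t ht h
    rw [H.eq_kk] at h
    exact absurd h (H.kk_not_gt hg ht)
  | L h a hh ha iha =>
    intro t ht
    have hso : H.Ok (Tm.app h a) := Ok.L h a hh ha
    induction ht with
    | K b => intro _; rw [H.sk_K]; exact List.nil_sublist _
    | L h' b hh' hb ihb =>
      intro hst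
      have hto : H.Ok (Tm.app h' b) := Ok.L h' b hh' hb
      have h0 : 0 < ar h' := by rw [hh'.1]; omega
      by_cases e : h = h'
      · subst e
        rw [gt_same H.irr hg] at hst
        rcases hst with hc | ⟨_, hx⟩
        · exact H.sk_of_arg hso iha hto hc
        · have h1 := H.ext_last hg hso hto h0 hx
          rw [H.sk_L hh' b (lst h0), H.sk_L hh a (lst h0)]
          exact iha _ _ (hb _) h1
      · rw [gt_diff hg e] at hst
        rcases hst with hc | ⟨_, hj⟩
        · exact H.sk_of_arg hso iha hto hc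
        · rw [H.sk_L hh' b (lst h0)]
          exact ihb _ (hj _)
    | P p b hb hk ihb =>
      intro hst
      have hto : H.Ok (Tm.app (F p) b) := Ok.P p b hb hk
      rw [gt_diff hg (H.inL_ne hh p)] at hst
      rcases hst with hc | ⟨hp, _⟩
      · exact H.sk_of_arg hso iha hto hc
      · exact absurd (H.tr _ _ _ (H.inL_prec hh p) hp) (H.irr _)
  | P p a ha hk iha =>
    intro t ht
    have hso : H.Ok (Tm.app (F p) a) := Ok.P p a ha hk
    induction ht with
    | K b => intro _; rw [H.sk_K]; exact List.nil_sublist _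
    | L h' b hh' hb ihb =>
      intro hst
      have hto : H.Ok (Tm.app h' b) := Ok.L h' b hh' hb
      have h0 : 0 < ar h' := by rw [hh'.1]; omega
      rw [gt_diff hg (H.inL_ne hh' p).symm] at hst
      rcases hst with hc | ⟨_, hj⟩
      · exact H.sk_of_arg hso iha hto hc
      · rw [H.sk_L hh' b (lst h0)]
        exact ihb _ (hj _)
    | P r b hb hkb ihb =>
      intro hst
      have hto : H.Ok (Tm.app (F r) b) := Ok.P r b hb hkb
      by_cases e : p = r
      · subst e
        rw [gt_same H.irr hg] at hst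
        rcases hst with hc | ⟨_, hx⟩
        · exact H.sk_of_arg hso iha hto hc
        · have h1 := H.ext_last hg hso hto (H.pos p) hx
          rw [H.sk_P, H.sk_P, List.cons_sublist_cons]
          exact iha _ _ (hb _) h1
      · rw [gt_diff hg (fun e' => e (H.hne _ _ e'))] at hst
        rcases hst with hc | ⟨hp, _⟩
        · exact H.sk_of_arg hso iha hto hc
        · exact absurd hp (H.hinc _ _)

theorem gtP_of_last (hg : IsRPO ar prec st gt) {p : Bool} {a b : Fin (ar (F p)) → Tm ar}
    (ha : ∀ i, H.Ok (a i)) (hka : ∀ i, i ≠ lst (H.pos p) → a i = H.kk)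
    (hkb : ∀ i, i ≠ lst (H.pos p) → b i = H.kk)
    (h : gt (a (lst (H.pos p))) (b (lst (H.pos p)))) :
    gt (Tm.app (F p) a) (Tm.app (F p) b) := by
  rw [gt_same H.irr hg]
  right
  have hl := H.pos p
  refine ⟨fun j => ?_, ?_⟩
  · by_cases hj : j = lst hl
    · rw [hj]
      exact gt_arg hg a _ (lst hl) (Or.inl h)
    · rw [hkb j hj]
      exact gt_arg hg a _ (lst hl) (H.ok_ge_kk hg (ha _))
  · rcases Bool.eq_false_or_eq_true (st (F p)) with hs | hs
    · have h1 : ar (F p) = 1 := by
        rcases H.hF p with h | h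
        · exact h
        · rw [hs] at h; exact absurd h.2 (by decide)
      refine Or.inr ⟨hs, 1, Finset.univ, ⟨lst hl, Finset.mem_univ _⟩, fun i hi => ?_,
        fun i _ => ⟨lst hl, Finset.mem_univ _, ?_⟩⟩
      · exact absurd (Finset.mem_univ i) hi
      · rw [eq_lst_one h1 i]
        exact h
    · refine Or.inl ⟨hs, lst hl, fun j hj => ?_, h⟩
      rw [hka j (ne_of_lt hj), hkb j (ne_of_lt hj)]
      exact Eqv.refl _

theorem a2 (hg : IsRPO ar prec st gt) {s : Tm ar} (hs : H.Ok s) :
    ∀ t, H.Ok t → ∀ p : Bool, (H.sk t ++ [p]).Sublist (H.sk s) → gt s t := by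
  induction hs with
  | K a =>
    intro t ht p h
    rw [H.sk_K] at h
    have := h.length_le
    simp at this
  | L h a hh ha iha =>
    intro t ht p h'
    have h0 : 0 < ar h := by rw [hh.1]; omega
    rw [H.sk_L hh a (lst h0)] at h'
    exact gt_arg hg a t (lst h0) (Or.inl (iha _ t ht p h'))
  | P p a ha hk iha =>
    intro t ht r hr
    have hso : H.Ok (Tm.app (F p) a) := Ok.P p a ha hk
    have hl := H.pos p
    induction ht with
    | K b =>
      rw [H.eq_kk]
      exact gt_arg hg a _ (lst hl) (H.ok_ge_kk hg (ha _))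
    | L h' b hh' hb ihb =>
      have h0 : 0 < ar h' := by rw [hh'.1]; omega
      rw [gt_diff hg (H.inL_ne hh' p).symm]
      right
      refine ⟨H.inL_prec hh' p, fun j => ihb j ?_⟩
      rwa [← H.sk_L hh' b j]
    | P p' b hb hkb ihb =>
      have hto : H.Ok (Tm.app (F p') b) := Ok.P p' b hb hkb
      rw [H.sk_P p a] at hr
      rw [H.sk_P] at hr
      by_cases e : p = p'
      · subst e
        rw [List.cons_append, List.cons_sublist_cons] at hr
        exact H.gtP_of_last hg ha hk hkb (iha _ _ (hb _) r hr)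
      · rw [List.cons_append, skip (Ne.symm e)] at hr
        refine gt_arg hg a _ (lst hl) (Or.inl (iha _ _ hto r ?_))
        rwa [H.sk_P]

theorem a3 (hg : IsRPO ar prec st gt) {s : Tm ar} (hs : H.Ok s) :
    ∀ v : Wd, v.Sublist (H.sk s) → gt s (v.foldr H.appP H.kk) ∨ s = v.foldr H.appP H.kk := by
  induction hs with
  | K a =>
    intro v h
    rw [H.sk_K, List.sublist_nil] at h
    subst h
    exact Or.inr (H.eq_kk a)
  | L h a hh ha iha =>
    intro v h'
    have h0 : 0 < ar h := by rw [hh.1]; omega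
    rw [H.sk_L hh a (lst h0)] at h'
    exact Or.inl (gt_arg hg a _ (lst h0) (iha _ v h'))
  | P p a ha hk iha =>
    intro v hv
    have hl := H.pos p
    cases v with
    | nil => exact Or.inl (gt_arg hg a _ (lst hl) (H.ok_ge_kk hg (ha _)))
    | cons r v =>
      rw [H.sk_P] at hv
      by_cases e : p = r
      · subst e
        rw [List.cons_sublist_cons] at hv
        rw [List.foldr_cons, appP]
        apply mono_args H.irr hg
        intro i
        by_cases hi : i = lst hl
        · rw [hi, if_pos ((eq_lst hl _).1 rfl)]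
          exact iha _ v hv
        · rw [hk i hi, if_neg (fun h => hi ((eq_lst hl i).2 h))]
          exact Or.inr rfl
      · rw [skip (Ne.symm e)] at hv
        exact Or.inl (gt_arg hg a _ (lst hl) (iha _ _ hv))

end Hyp

end Pool.Agent.K4H87.RPO
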