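import Pool.Agent.K4H87.RPO.Words

/-! The word combinatorics behind multiplication. -/

set_option autoImplicit false

namespace Pool.Agent.K4H87.RPO

@[simp] theorem rp_ct (n : ℕ) : (rp false n).count true = 0 := rp_count_not true n
@[simp] theorem rp_cf (n : ℕ) : (rp true n).count false = 0 := rp_count_not false n

theorem len_eq (w : Wd) : w.length = w.count true + w.count false := by
  induction w with
  | nil => rfl
  | cons x w ih =>
    rw [List.length_cons, ih]
    cases x
    · rw [List.count_cons_self, List.count_cons_of_ne (by decide)]
      omega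
    · rw [List.count_cons_self, List.count_cons_of_ne (by decide)]
      omega

theorem eq_of_counts {x y : Wd} (h : x.Sublist y) (h1 : y.count true ≤ x.count true)
    (h2 : y.count false ≤ x.count false) : x = y := by
  apply h.eq_of_length_le
  rw [len_eq, len_eq x]
  omega

/-- decomposition at the last `q` -/
theorem dec' (q : Bool) (u : Wd) :
    (∃ i, u = rp (!q) i) ∨ ∃ u' i, u = u' ++ [q] ++ rp (!q) i := by
  rcases dec q u.reverse with ⟨i, h⟩ | ⟨i, u', h⟩
  · left
    refine ⟨i, ?_⟩
    have := congrArg List.reverse h
    rw [List.reverse_reverse] at this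
    rw [this, rp, List.reverse_replicate]
  · right
    refine ⟨u'.reverse, i, ?_⟩
    have := congrArg List.reverse h
    rw [List.reverse_reverse] at this
    rw [this, rp]
    simp

theorem dropr {q : Bool} {w z : Wd} (n : ℕ) :
    (w ++ [q]).Sublist (z ++ rp (!q) n) ↔ (w ++ [q]).Sublist z := by
  induction n with
  | zero => simp
  | succ n ih => rw [rp_succ', ← List.append_assoc, lastdrop (bne q), ih]

/-- commuting words have proportional letter counts -/
theorem comm_counts (n : ℕ) : ∀ (x y : Wd), x.length + y.length ≤ n → x ++ y = y ++ x →
    x.count true * y.count false = x.count false * y.count true := by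
  induction n with
  | zero =>
    intro x y h _
    have : x = [] := List.length_eq_zero_iff.1 (by omega)
    subst this
    simp
  | succ n ih =>
    have key : ∀ (x y : Wd), x.length ≤ y.length → x.length + y.length ≤ n + 1 →
        x ++ y = y ++ x →
        x.count true * y.count false = x.count false * y.count true := by
      intro x y hl h e
      rcases Nat.eq_zero_or_pos x.length with h0 | h0
      · have : x = [] := List.length_eq_zero_iff.1 h0
        subst this
        simp
      · have hp : x <+: y := by
          have h1 : x <+: x ++ y := List.prefix_append x y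
          have h2 : y <+: x ++ y := by rw [e]; exact List.prefix_append y x
          exact List.prefix_of_prefix_length_le h1 h2 hl
        obtain ⟨y', rfl⟩ := hp
        have e' : x ++ y' = y' ++ x := by
          rw [List.append_assoc, List.append_cancel_left_eq] at e
          exact e
        have := ih x y' (by simp at h; omega) e'
        rw [List.count_append, List.count_append]
        nlinarith [this]
    intro x y h e
    rcases Nat.le_total x.length y.length with hl | hl
    · exact key x y hl h e
    · have := key y x hl (by omega) e.symm
      nlinarith [this]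

theorem lastc (w : Wd) : w = [] ∨ (∃ u, w = u ++ [true]) ∨ ∃ u, w = u ++ [false] := by
  rcases List.eq_nil_or_concat w with rfl | ⟨u, x, rfl⟩
  · exact Or.inl rfl
  · cases x
    · exact Or.inr (Or.inr ⟨u, by simp⟩)
    · exact Or.inr (Or.inl ⟨u, by simp⟩)

/-- the core of a word: longest prefix ending in `a` and followed by a `b` -/
theorem core (w : Wd) (h' : [true, false].Sublist w) :
    ∃ c0 : Wd, ∀ q : Wd, (q ++ [true] ++ [false]).Sublist w ↔ q.Sublist c0 := by
  rcases dec' false w with ⟨i, rfl⟩ | ⟨u, j, rfl⟩
  · exact absurd h' (not_sub_pure (by simp))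
  · have h2 : ([true] ++ [false]).Sublist (u ++ [false] ++ rp (!false) j) := h'
    rw [dropr, lastsame] at h2
    rcases dec' true u with ⟨i, rfl⟩ | ⟨c0, i, rfl⟩
    · exact absurd h2 (not_sub_pure (by simp))
    · refine ⟨c0, fun q => ?_⟩
      rw [dropr, lastsame, dropr, lastsame]

theorem mul_snd {k m M : ℕ} {ws wv wd : Wd}
    (h1 : (rp true (k + 1) ++ [false]).Sublist ws)
    (h2 : ∀ r, ¬ (true :: rp true (k + 1) ++ [r]).Sublist ws)
    (h3 : (rp false M ++ [true, false]).Sublist ws)
    (h4 : ∀ r, ¬ (false :: (rp false M ++ [true]) ++ [r]).Sublist ws)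
    (h5 : (rp true k ++ [false, true, false]).Sublist ws)
    (h6 : (true :: (rp true (k + 1) ++ [false])).Sublist wv)
    (h7 : ∀ r, ¬ (true :: true :: rp true (k + 1) ++ [r]).Sublist wv)
    (h8 : (rp false (M + m) ++ [true, false]).Sublist wv)
    (h9 : ∀ r, ¬ (false :: (rp false (M + m) ++ [true]) ++ [r]).Sublist wv)
    (h10 : (true :: (rp false M ++ [true, false])).Sublist wv)
    (h11 : ∀ r, ¬ (true :: false :: (rp false M ++ [true]) ++ [r]).Sublist wv)
    (h12 : (true :: ws).Sublist wv)
    (h13 : ws.Sublist wd)
    (h14 : (true :: (rp true (k + 1) ++ [false])).Sublist wd)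
    (h15 : ∀ r, ¬ (true :: true :: rp true (k + 1) ++ [r]).Sublist wd)
    (h16 : ∀ r, ¬ (false :: (rp false M ++ [true]) ++ [r]).Sublist wd)
    (h17 : ∀ r, ¬ (rp true (k + 1) ++ [false, true] ++ [r]).Sublist wd)
    (h18 : wd.Sublist wv)
    (h19 : ∀ r, ¬ (false :: (rp false M ++ [true, true]) ++ [r]).Sublist wv) :
    M = m * (k + 1) := by
  have e1 : ([true, false] : Wd).Sublist ws :=
    (by simp [rp_succ'] : ([true, false] : Wd).Sublist (rp true (k + 1) ++ [false])).trans h1
  obtain ⟨c0, hc⟩ := core ws e1
  obtain ⟨d0, hd⟩ := core wd (e1.trans h13)
  obtain ⟨v0, hv⟩ := core wv ((e1.trans h13).trans h18)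
  -- counts of c0
  have c1 : c0.count true = k := by
    rw [rp_succ', hc, rp_sub] at h1
    have h2 := h2 false
    rw [← rp_succ, rp_succ', hc, rp_sub] at h2
    omega
  have c2 : c0.count false = M := by
    rw [show rp false M ++ [true, false] = rp false M ++ [true] ++ [false] by simp, hc,
      rp_sub] at h3
    have h4 := h4 false
    rw [show false :: (rp false M ++ [true]) ++ [false] =
      rp false (M + 1) ++ [true] ++ [false] by simp [rp_succ], hc, rp_sub] at h4
    omega
  have c3 : ∃ c1, c0 = c1 ++ [false] := by
    rw [show rp true k ++ [false, true, false] = (rp true k ++ [false]) ++ [true] ++ [false] by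
      simp, hc] at h5
    rcases lastc c0 with rfl | ⟨c1, rfl⟩ | h
    · simp at h5
    · exfalso
      rw [lastdrop (by decide)] at h5
      have := h5.count_le true
      simp at this c1
      omega
    · exact h
  have v1 : v0.count true = k + 1 := by
    rw [← List.cons_append, ← rp_succ, rp_succ', hv, rp_sub] at h6
    have h7 := h7 false
    rw [← rp_succ, ← rp_succ, rp_succ', hv, rp_sub] at h7
    omega
  have v2 : v0.count false = M + m := by
    rw [show rp false (M + m) ++ [true, false] = rp false (M + m) ++ [true] ++ [false] by simp,
      hv, rp_sub] at h8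
    have h9 := h9 false
    rw [show false :: (rp false (M + m) ++ [true]) ++ [false] =
      rp false (M + m + 1) ++ [true] ++ [false] by simp [rp_succ], hv, rp_sub] at h9
    omega
  have v3 : v0 = rp false m ++ true :: c0 := by
    rcases dec true v0 with ⟨i, rfl⟩ | ⟨i, v', rfl⟩
    · simp at v1
    · rw [show true :: (rp false M ++ [true, false]) =
        (true :: rp false M) ++ [true] ++ [false] by simp, hv, first, rp_sub] at h10
      have h11 := h11 false
      rw [show true :: false :: (rp false M ++ [true]) ++ [false] =
        (true :: rp false (M + 1)) ++ [true] ++ [false] by simp [rp_succ], hv, first,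
        rp_sub] at h11
      have h12' : (c0 ++ [true] ++ [false]).Sublist ws := by rw [hc]
      have h12'' : ((true :: c0) ++ [true] ++ [false]).Sublist wv := by
        refine List.Sublist.trans ?_ h12
        simpa using h12'
      rw [hv, first] at h12''
      have : c0 = v' := by
        apply eq_of_counts h12''
        · simp at v1
          omega
        · omega
      subst this
      have : i = m := by
        simp at v2
        omega
      rw [this]
      rfl
  have d1 : d0.count true = k + 1 := by
    rw [← List.cons_append, ← rp_succ, rp_succ', hd, rp_sub] at h14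
    have h15 := h15 false
    rw [← rp_succ, ← rp_succ, rp_succ', hd, rp_sub] at h15
    omega
  have d2 : d0.count false ≤ M := by
    have h16 := h16 false
    rw [show false :: (rp false M ++ [true]) ++ [false] =
      rp false (M + 1) ++ [true] ++ [false] by simp [rp_succ], hd, rp_sub] at h16
    omega
  have d3 : d0 = c0 ++ [true] := by
    have h17 := h17 false
    rw [show rp true (k + 1) ++ [false, true] ++ [false] =
      (rp true (k + 1) ++ [false]) ++ [true] ++ [false] by simp, hd] at h17
    have h13' : c0.Sublist d0 := by
      rw [← hd]
      refine List.Sublist.trans ?_ h13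
      rw [hc]
    rcases lastc d0 with rfl | ⟨d1', rfl⟩ | ⟨d1', rfl⟩
    · simp at d1
    · obtain ⟨c1', hc1⟩ := c3
      rw [hc1, lastdrop (by decide), ← hc1] at h13'
      have : c0 = d1' := by
        apply eq_of_counts h13'
        · simp at d1
          omega
        · simp at d2
          omega
      rw [this]
    · exfalso
      apply h17
      rw [lastsame, rp_sub]
      simp at d1
      omega
  have v4 : v0 = c0 ++ [true] ++ rp false m := by
    have h19 := h19 false
    rw [show false :: (rp false M ++ [true, true]) ++ [false] =
      (rp false (M + 1) ++ [true]) ++ [true] ++ [false] by simp [rp_succ], hv] at h19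
    have h18' : (c0 ++ [true]).Sublist v0 := by
      rw [← hv]
      refine List.Sublist.trans ?_ h18
      rw [hd, d3]
    clear v3
    rcases dec' true v0 with ⟨i, rfl⟩ | ⟨v', i, rfl⟩
    · simp at v1
    · rw [dropr, lastsame, rp_sub] at h19
      rw [dropr, lastsame] at h18'
      have : c0 = v' := by
        apply eq_of_counts h18'
        · simp at v1
          omega
        · omega
      subst this
      have : i = m := by
        simp at v2
        omega
      rw [this]
      rfl
  have hcomm : (rp false m ++ [true]) ++ (c0 ++ [true]) =
      (c0 ++ [true]) ++ (rp false m ++ [true]) := by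
    rw [v3] at v4
    have := congrArg (fun z => z ++ [true]) v4
    simpa using this
  have := comm_counts _ _ _ le_rfl hcomm
  simp at this
  rw [c1, c2] at this
  linarith

/-- the word `(b^m a)^k` -/
def blk (m : ℕ) : ℕ → Wd
  | 0 => []
  | k + 1 => rp false m ++ true :: blk m k

theorem blk_succ (m k : ℕ) : blk m (k + 1) = blk m k ++ (rp false m ++ [true]) := by
  induction k with
  | zero => simp [blk]
  | succ k ih =>
    have e : blk m (k + 1 + 1) = rp false m ++ true :: blk m (k + 1) := rfl
    have e' : blk m (k + 1) = rp false m ++ true :: blk m k := rfl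
    conv_lhs => rw [e, ih]
    conv_rhs => rw [e']
    simp

theorem first_t {w z : Wd} (n : ℕ) :
    (true :: w).Sublist (rp false n ++ true :: z) ↔ w.Sublist z := first (q := true) n

theorem blk_ct (m k : ℕ) : (blk m k).count true = k := by
  induction k with
  | zero => rfl
  | succ k ih => simp [blk, ih]

theorem blk_cf (m k : ℕ) : (blk m k).count false = m * k := by
  induction k with
  | zero => rfl
  | succ k ih => simp [blk, ih]; ring

theorem mul_cmp {k m : ℕ} (hm : 1 ≤ m) (M : ℕ) (hM : M = m * (k + 1)) (ws wv wd : Wd)
    (hws : ws = blk m (k + 1) ++ [false]) (hwd : wd = blk m (k + 1) ++ [true, false])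
    (hwv : wv = blk m (k + 2) ++ [false]) :
    (rp true (k + 1) ++ [false]).Sublist ws ∧
    (¬ (true :: rp true (k + 1)).Sublist ws) ∧
    (rp false M ++ [true, false]).Sublist ws ∧
    (¬ (false :: (rp false M ++ [true])).Sublist ws) ∧
    (rp true k ++ [false, true, false]).Sublist ws ∧
    (true :: (rp true (k + 1) ++ [false])).Sublist wv ∧
    (¬ (true :: true :: rp true (k + 1)).Sublist wv) ∧
    (rp false (M + m) ++ [true, false]).Sublist wv ∧
    (¬ (false :: (rp false (M + m) ++ [true])).Sublist wv) ∧
    (true :: (rp false M ++ [true, false])).Sublist wv ∧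
    (¬ (true :: false :: (rp false M ++ [true])).Sublist wv) ∧
    (true :: ws).Sublist wv ∧
    ws.Sublist wd ∧
    (true :: (rp true (k + 1) ++ [false])).Sublist wd ∧
    (¬ (true :: true :: rp true (k + 1)).Sublist wd) ∧
    (¬ (false :: (rp false M ++ [true])).Sublist wd) ∧
    (¬ (rp true (k + 1) ++ [false, true]).Sublist wd) ∧
    wd.Sublist wv ∧
    (¬ (false :: (rp false M ++ [true, true])).Sublist wv) := by
  have ct := blk_ct m
  have cf := blk_cf m
  subst hM
  refine ⟨?_, ?_, ?_, ?_, ?_, ?_, ?_, ?_, ?_, ?_, ?_, ?_, ?_, ?_, ?_, ?_, ?_, ?_, ?_⟩
  · rw [hws, lastsame, rp_sub, ct]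
  · intro h
    have := h.count_le true
    rw [hws] at this
    simp [ct] at this
  · rw [hws, blk_succ, show rp false (m * (k + 1)) ++ [true, false] =
      rp false (m * (k + 1)) ++ [true] ++ [false] by simp, lastsame, ← List.append_assoc,
      lastsame, rp_sub]
    simp [cf]
    ring_nf
    rfl
  · rw [hws, ← List.cons_append, lastdrop (by decide)]
    intro h
    have := h.count_le false
    simp [cf] at this
  · rw [hws, blk_succ, show rp true k ++ [false, true, false] =
      rp true k ++ [false] ++ [true] ++ [false] by simp, lastsame, ← List.append_assoc,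
      lastsame]
    apply List.Sublist.append
    · rw [rp_sub, ct]
    · rw [show [false] = rp false 1 from rfl, rp_sub_rp]
      exact hm
  · rw [hwv, ← List.cons_append, lastsame, ← rp_succ, rp_sub, ct]
  · intro h
    have := h.count_le true
    rw [hwv] at this
    simp [ct] at this
  · rw [hwv, blk_succ, show rp false (m * (k + 1) + m) ++ [true, false] =
      rp false (m * (k + 1) + m) ++ [true] ++ [false] by simp, lastsame, ← List.append_assoc,
      lastsame, rp_sub]
    simp [cf]
  · rw [hwv, ← List.cons_append, lastdrop (by decide)]
    intro h
    have := h.count_le false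
    simp [cf] at this
    nlinarith
  · rw [hwv, show blk m (k + 2) = rp false m ++ true :: blk m (k + 1) from rfl,
      List.append_assoc, List.cons_append, first_t,
      show rp false (m * (k + 1)) ++ [true, false] =
      rp false (m * (k + 1)) ++ [true] ++ [false] by simp, lastsame, blk_succ,
      ← List.append_assoc, lastsame, rp_sub]
    simp [cf]
    ring_nf
    rfl
  · rw [hwv, ← List.cons_append, ← List.cons_append, lastdrop (by decide), List.cons_append,
      List.cons_append, show blk m (k + 2) = rp false m ++ true :: blk m (k + 1) from rfl,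
      first_t]
    intro h
    have := h.count_le false
    simp [cf] at this
  · rw [hws, hwv, show blk m (k + 2) = rp false m ++ true :: blk m (k + 1) from rfl,
      List.append_assoc, List.cons_append, first_t]
  · rw [hws, hwd]
    exact List.Sublist.append_left (by decide) _
  · rw [hwd, ← List.cons_append, show blk m (k + 1) ++ [true, false] =
      blk m (k + 1) ++ [true] ++ [false] by simp, lastsame, ← rp_succ, rp_sub]
    simp [ct]
  · intro h
    have := h.count_le true
    rw [hwd] at this
    simp [ct] at this
  · rw [hwd, ← List.cons_append, show blk m (k + 1) ++ [true, false] =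
      blk m (k + 1) ++ [true] ++ [false] by simp, lastdrop (by decide)]
    intro h
    have := h.count_le false
    simp [cf] at this
  · rw [hwd, show rp true (k + 1) ++ [false, true] = rp true (k + 1) ++ [false] ++ [true] by simp,
      show blk m (k + 1) ++ [true, false] =
      blk m (k + 1) ++ [true] ++ [false] by simp, lastdrop (by decide), lastsame, blk_succ,
      ← List.append_assoc, lastdrop (by decide)]
    intro h
    have := h.count_le true
    simp [ct] at this
  · rw [hwd, hwv, blk_succ m (k + 1), show blk m (k + 1) ++ [true, false] =
      blk m (k + 1) ++ [true] ++ [false] by simp, lastsame]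
    exact List.Sublist.append_left (by simp) _
  · rw [hwv, show false :: (rp false (m * (k + 1)) ++ [true, true]) =
      (rp false (m * (k + 1) + 1) ++ [true]) ++ [true] by simp [rp_succ], lastdrop (by decide),
      blk_succ m (k + 1), ← List.append_assoc, lastsame]
    intro h
    have h' : (rp false (m * (k + 1) + 1) ++ [true]).Sublist (blk m (k + 1)) :=
      (dropr (q := true) m).1 h
    have := h'.count_le false
    simp [cf] at this

end Pool.Agent.K4H87.RPO
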