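import Pool.Agent.K4H87.RPO.Defs

/-! The recursive path ordering exists and is unique; codes are injective. -/

set_option autoImplicit false

namespace Pool.Agent.K4H87.RPO

variable {q : ℕ} {ar : Fin q → ℕ}

theorem flatten_inj {n : ℕ} {P : Fin n → Prop} {c d : Fin n → List ℕ}
    (h : ∀ i r r', c i ++ r = d i ++ r' → P i ∧ r = r') (r r' : List ℕ)
    (e : (List.ofFn c).flatten ++ r = (List.ofFn d).flatten ++ r') : (∀ i, P i) ∧ r = r' := by
  induction n generalizing r r' with
  | zero =>
    refine ⟨fun i => i.elim0, ?_⟩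
    simpa using e
  | succ n ih =>
    rw [List.ofFn_succ, List.ofFn_succ, List.flatten_cons, List.flatten_cons, List.append_assoc,
      List.append_assoc] at e
    obtain ⟨h0, e'⟩ := h 0 _ _ e
    obtain ⟨h1, h2⟩ := ih (P := fun i => P i.succ) (fun i => h i.succ) r r' e'
    exact ⟨fun i => Fin.cases h0 h1 i, h2⟩

theorem VT.code_inj' (u : VT ar) : ∀ (v : VT ar) (r r' : List ℕ),
    u.code ++ r = v.code ++ r' → u = v ∧ r = r' := by
  induction u with
  | var k =>
    intro v r r' e
    cases v with
    | var k' =>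
      simp [VT.code] at e
      exact ⟨by rw [e.1], e.2⟩
    | app g b => simp [VT.code] at e
  | app f a ih =>
    intro v r r' e
    cases v with
    | var k' => simp [VT.code] at e
    | app g b =>
      simp only [VT.code, List.cons_append, List.cons.injEq, Nat.add_right_cancel_iff] at e
      obtain ⟨e1, e2⟩ := e
      obtain rfl : f = g := Fin.ext e1
      obtain ⟨h1, h2⟩ := flatten_inj (P := fun i => a i = b i) (fun i r r' h => ih i (b i) r r' h)
        r r' e2
      exact ⟨by rw [funext h1], h2⟩

theorem QF.code_inj' (φ : QF ar) : ∀ (ψ : QF ar) (r r' : List ℕ),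
    φ.code ++ r = ψ.code ++ r' → φ = ψ ∧ r = r' := by
  induction φ with
  | eq u v =>
    intro ψ r r' e
    cases ψ <;> simp only [QF.code, List.cons_append, List.cons.injEq, List.append_assoc] at e
    · obtain ⟨-, e⟩ := e
      obtain ⟨h1, e⟩ := u.code_inj' _ _ _ e
      obtain ⟨h2, e⟩ := v.code_inj' _ _ _ e
      exact ⟨by rw [h1, h2], e⟩
    all_goals exact absurd e.1 (by decide)
  | gt u v =>
    intro ψ r r' e
    cases ψ <;> simp only [QF.code, List.cons_append, List.cons.injEq, List.append_assoc] at e
    case gt =>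
      obtain ⟨-, e⟩ := e
      obtain ⟨h1, e⟩ := u.code_inj' _ _ _ e
      obtain ⟨h2, e⟩ := v.code_inj' _ _ _ e
      exact ⟨by rw [h1, h2], e⟩
    all_goals exact absurd e.1 (by decide)
  | neg φ ih =>
    intro ψ r r' e
    cases ψ <;> simp only [QF.code, List.cons_append, List.cons.injEq, List.append_assoc] at e
    case neg =>
      obtain ⟨h1, e⟩ := ih _ _ _ e.2
      exact ⟨by rw [h1], e⟩
    all_goals exact absurd e.1 (by decide)
  | and φ1 φ2 ih1 ih2 =>
    intro ψ r r' e
    cases ψ <;> simp only [QF.code, List.cons_append, List.cons.injEq, List.append_assoc] at e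
    case and =>
      obtain ⟨-, e⟩ := e
      obtain ⟨h1, e⟩ := ih1 _ _ _ e
      obtain ⟨h2, e⟩ := ih2 _ _ _ e
      exact ⟨by rw [h1, h2], e⟩
    all_goals exact absurd e.1 (by decide)
  | or φ1 φ2 ih1 ih2 =>
    intro ψ r r' e
    cases ψ <;> simp only [QF.code, List.cons_append, List.cons.injEq, List.append_assoc] at e
    case or =>
      obtain ⟨-, e⟩ := e
      obtain ⟨h1, e⟩ := ih1 _ _ _ e
      obtain ⟨h2, e⟩ := ih2 _ _ _ e
      exact ⟨by rw [h1, h2], e⟩
    all_goals exact absurd e.1 (by decide)

theorem code_injective : Function.Injective (QF.code (ar := ar)) := by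
  intro φ ψ h
  exact (φ.code_inj' ψ [] [] (by rw [h])).1

/-- the extension only compares components of the first tuple -/
theorem Ext.congr {α : Type} {E gt gt' : α → α → Prop} {s : Bool} {m : ℕ} {a b : Fin m → α}
    (h : ∀ i y, gt (a i) y ↔ gt' (a i) y) : Ext E gt s a b ↔ Ext E gt' s a b := by
  unfold Ext LexExt MulExt
  simp only [h]

theorem rpo_unique {prec : Fin q → Fin q → Prop} {st : Fin q → Bool}
    {gt gt' : Tm ar → Tm ar → Prop} (h : IsRPO ar prec st gt) (h' : IsRPO ar prec st gt') :
    gt = gt' := by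
  funext s
  induction s with
  | app f a iha =>
    have iha' : ∀ i y, gt (a i) y ↔ gt' (a i) y := fun i y => by rw [iha i]
    funext t
    induction t with
    | app g b ihb =>
      have ihb' : ∀ j, gt (Tm.app f a) (b j) ↔ gt' (Tm.app f a) (b j) := fun j => by rw [ihb j]
      rw [h f a, h' f a]
      apply propext
      refine or_congr ?_ (or_congr ?_ ?_)
      · simp only [iha']
      · constructor
        · rintro ⟨g', b', e, hp, hj⟩
          injection e with e1 e2
          subst e1
          obtain rfl := eq_of_heq e2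
          exact ⟨g, b, rfl, hp, fun j => (ihb' j).1 (hj j)⟩
        · rintro ⟨g', b', e, hp, hj⟩
          injection e with e1 e2
          subst e1
          obtain rfl := eq_of_heq e2
          exact ⟨g, b, rfl, hp, fun j => (ihb' j).2 (hj j)⟩
      · constructor
        · rintro ⟨b', e, hj, hx⟩
          refine ⟨b', e, fun j => ?_, (Ext.congr iha').1 hx⟩
          injection e with e1 e2
          subst e1
          obtain rfl := eq_of_heq e2
          exact (ihb' j).1 (hj j)
        · rintro ⟨b', e, hj, hx⟩
          refine ⟨b', e, fun j => ?_, (Ext.congr iha').2 hx⟩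
          injection e with e1 e2
          subst e1
          obtain rfl := eq_of_heq e2
          exact (ihb' j).2 (hj j)

/-- the recursive path ordering -/
def rpo (prec : Fin q → Fin q → Prop) (st : Fin q → Bool) (s : Tm ar) : Tm ar → Prop :=
  Tm.rec (motive := fun _ => Tm ar → Prop) (fun f a iha t =>
    Tm.rec (motive := fun _ => Prop) (fun g b ihb =>
      (∃ i, iha i (Tm.app g b) ∨ Eqv ar st (a i) (Tm.app g b)) ∨
      (prec f g ∧ ∀ j, ihb j) ∨
      (∃ b' : Fin (ar f) → Tm ar, Tm.app g b = Tm.app f b' ∧ (∀ j, ihb j) ∧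
        Ext (Eqv ar st) (fun x y => ∃ i, x = a i ∧ iha i y) (st f) a b')) t) s

theorem rpo_app (prec : Fin q → Fin q → Prop) (st : Fin q → Bool) (f g : Fin q)
    (a : Fin (ar f) → Tm ar) (b : Fin (ar g) → Tm ar) :
    rpo prec st (Tm.app f a) (Tm.app g b) =
      ((∃ i, rpo prec st (a i) (Tm.app g b) ∨ Eqv ar st (a i) (Tm.app g b)) ∨
      (prec f g ∧ ∀ j, rpo prec st (Tm.app f a) (b j)) ∨
      (∃ b' : Fin (ar f) → Tm ar, Tm.app g b = Tm.app f b' ∧
        (∀ j, rpo prec st (Tm.app f a) (b j)) ∧
        Ext (Eqv ar st) (fun x y => ∃ i, x = a i ∧ rpo prec st (a i) y) (st f) a b')) := rfl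

theorem rpo_isRPO (prec : Fin q → Fin q → Prop) (st : Fin q → Bool) :
    IsRPO ar prec st (rpo (ar := ar) prec st) := by
  intro f a t
  cases t with
  | app g b =>
    rw [rpo_app]
    have key : ∀ i y, (∃ k, a i = a k ∧ rpo prec st (a k) y) ↔ rpo prec st (a i) y := by
      intro i y
      constructor
      · rintro ⟨k, e, h⟩
        rwa [e]
      · intro h
        exact ⟨i, rfl, h⟩
    refine or_congr Iff.rfl (or_congr ?_ ?_)
    · constructor
      · rintro ⟨hp, hj⟩
        exact ⟨g, b, rfl, hp, hj⟩
      · rintro ⟨g', b', e, hp, hj⟩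
        injection e with e1 e2
        subst e1
        obtain rfl := eq_of_heq e2
        exact ⟨hp, hj⟩
    · constructor
      · rintro ⟨b', e, hj, hx⟩
        refine ⟨b', e, fun j => ?_, (Ext.congr key).1 hx⟩
        injection e with e1 e2
        subst e1
        obtain rfl := eq_of_heq e2
        exact hj j
      · rintro ⟨b', e, hj, hx⟩
        refine ⟨b', e, fun j => ?_, (Ext.congr key).2 hx⟩
        injection e with e1 e2
        subst e1
        obtain rfl := eq_of_heq e2
        exact hj j

theorem rpo_existsUnique (prec : Fin q → Fin q → Prop) (st : Fin q → Bool) :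
    ∃! gt : Tm ar → Tm ar → Prop, IsRPO ar prec st gt :=
  ⟨rpo prec st, rpo_isRPO prec st, fun _ h => rpo_unique h (rpo_isRPO prec st)⟩

end Pool.Agent.K4H87.RPO
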