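import Mathlib

/-! Sublists of words over two letters. -/

set_option autoImplicit false

namespace Pool.Agent.K4H87.RPO

abbrev Wd := List Bool

/-- the word `p^n` -/
def rp (p : Bool) (n : ℕ) : Wd := List.replicate n p

@[simp] theorem rp_zero (p : Bool) : rp p 0 = [] := rfl
theorem rp_succ (p : Bool) (n : ℕ) : rp p (n + 1) = p :: rp p n := List.replicate_succ
theorem rp_succ' (p : Bool) (n : ℕ) : rp p (n + 1) = rp p n ++ [p] := List.replicate_succ'
theorem rp_add (p : Bool) (m n : ℕ) : rp p (m + n) = rp p m ++ rp p n := by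
  simp [rp]
@[simp] theorem rp_length (p : Bool) (n : ℕ) : (rp p n).length = n := by simp [rp]
@[simp] theorem rp_count (p : Bool) (n : ℕ) : (rp p n).count p = n := by simp [rp]
@[simp] theorem rp_count_not (p : Bool) (n : ℕ) : (rp (!p) n).count p = 0 := by
  cases p <;> simp [rp, List.count_replicate]
@[simp] theorem rp_count_not' (p : Bool) (n : ℕ) : (rp p n).count (!p) = 0 := by
  cases p <;> simp [rp, List.count_replicate]

theorem rp_sub_rp {p : Bool} {m n : ℕ} : (rp p m).Sublist (rp p n) ↔ m ≤ n := by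
  simp [rp]

theorem rp_inj {p : Bool} {m n : ℕ} (h : rp p m = rp p n) : m = n := by
  have := congrArg List.length h
  simpa using this

theorem bne (q : Bool) : q ≠ !q := by cases q <;> decide
theorem nbe (q : Bool) : (!q) ≠ q := by cases q <;> decide

theorem skip {q r : Bool} (h : q ≠ r) {w z : Wd} : (q :: w).Sublist (r :: z) ↔ (q :: w).Sublist z := by
  constructor
  · intro H
    cases H with
    | cons _ H => exact H
    | cons_cons _ H => exact absurd rfl h
  · exact fun H => H.cons _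

theorem skipr {q r : Bool} (h : q ≠ r) {w z : Wd} (n : ℕ) :
    (q :: w).Sublist (rp r n ++ z) ↔ (q :: w).Sublist z := by
  induction n with
  | zero => simp
  | succ n ih =>
    rw [rp_succ, List.cons_append, skip h, ih]

/-- first occurrence of a letter in the pattern -/
theorem first {q : Bool} {w z : Wd} (n : ℕ) :
    (q :: w).Sublist (rp (!q) n ++ q :: z) ↔ w.Sublist z := by
  rw [skipr (bne q), List.cons_sublist_cons]

theorem lastdrop {q r : Bool} (h : q ≠ r) {w z : Wd} :
    (w ++ [q]).Sublist (z ++ [r]) ↔ (w ++ [q]).Sublist z := by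
  rw [← List.reverse_sublist, ← List.reverse_sublist (l₂ := z)]
  simp only [List.reverse_append, List.reverse_cons, List.reverse_nil, List.nil_append,
    List.singleton_append]
  exact skip h

theorem lastsame {q : Bool} {w z : Wd} :
    (w ++ [q]).Sublist (z ++ [q]) ↔ w.Sublist z := by
  rw [← List.reverse_sublist]
  simp only [List.reverse_append, List.reverse_cons, List.reverse_nil, List.nil_append,
    List.singleton_append, List.cons_sublist_cons, List.reverse_sublist]

theorem rp_sub {p : Bool} {n : ℕ} {w : Wd} : (rp p n).Sublist w ↔ n ≤ w.count p :=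
  List.replicate_sublist_iff

/-- decomposition at the first `q` -/
theorem dec (q : Bool) (u : Wd) :
    (∃ i, u = rp (!q) i) ∨ ∃ i u', u = rp (!q) i ++ q :: u' := by
  induction u with
  | nil => exact Or.inl ⟨0, rfl⟩
  | cons a u ih =>
    rcases eq_or_ne a q with h | h
    · exact Or.inr ⟨0, u, by simp [h]⟩
    · have ha : a = !q := by cases a <;> cases q <;> simp_all
      rcases ih with ⟨i, rfl⟩ | ⟨i, u', rfl⟩
      · exact Or.inl ⟨i + 1, by simp [ha, rp_succ]⟩
      · exact Or.inr ⟨i + 1, u', by simp [ha, rp_succ]⟩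

theorem pure_of {q : Bool} {u : Wd} (h : ¬ [q].Sublist u) : ∃ i, u = rp (!q) i := by
  rcases dec q u with h' | ⟨i, u', rfl⟩
  · exact h'
  · exact absurd (by rw [first]; exact List.nil_sublist _) h

theorem not_sub_pure {q : Bool} {i : ℕ} {w : Wd} (h : q ∈ w) : ¬ w.Sublist (rp (!q) i) := by
  intro H
  have := H.subset h
  rw [rp, List.mem_replicate] at this
  cases q <;> simp at this

theorem nil_of {q : Bool} {u : Wd} (h : ¬ [q].Sublist u) (h' : ¬ [!q].Sublist u) : u = [] := by
  obtain ⟨i, rfl⟩ := pure_of h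
  cases i with
  | zero => rfl
  | succ i => exact absurd (by rw [rp_succ]; simp) h'

/-- `u = p^n q` -/
theorem t1_snd {q : Bool} {u : Wd} {n : ℕ} (h1 : ¬ [q, !q].Sublist u) (h2 : ¬ [q, q].Sublist u)
    (h3 : [q].Sublist u) (h4 : (rp (!q) n).Sublist u)
    (h5 : ∀ r, ¬ ((!q) :: rp (!q) n ++ [r]).Sublist u) : u = rp (!q) n ++ [q] := by
  rcases dec q u with ⟨i, rfl⟩ | ⟨i, u', rfl⟩
  · exact absurd h3 (not_sub_pure (by simp))
  · rw [first] at h1 h2
    obtain rfl := nil_of h2 h1
    rw [rp_sub] at h4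
    have h6 := h5 q
    rw [← rp_succ, lastsame, rp_sub_rp] at h6
    have : i = n := by
      simp at h4
      omega
    rw [this]

theorem t1_cmp (q : Bool) (n : ℕ) : ¬ [q, !q].Sublist (rp (!q) n ++ [q]) ∧
    ¬ [q, q].Sublist (rp (!q) n ++ [q]) ∧ [q].Sublist (rp (!q) n ++ [q]) ∧
    (rp (!q) n).Sublist (rp (!q) n ++ [q]) ∧
    ¬ ((!q) :: rp (!q) n).Sublist (rp (!q) n ++ [q]) := by
  refine ⟨?_, ?_, ?_, by simp, ?_⟩
  · rw [first]; simp
  · rw [first]; simp
  · rw [first]
  · intro h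
    have := h.count_le (!q)
    simp at this

/-- `u = p^n q p` -/
theorem t2_snd {q : Bool} {u : Wd} {n : ℕ} (h1 : ¬ [q, q].Sublist u)
    (h2 : ¬ [q, !q, !q].Sublist u) (h3 : [q, !q].Sublist u)
    (h4 : (rp (!q) n ++ [q]).Sublist u)
    (h5 : ∀ r, ¬ ((!q) :: (rp (!q) n ++ [q]) ++ [r]).Sublist u) : u = rp (!q) n ++ [q, !q] := by
  rcases dec q u with ⟨i, rfl⟩ | ⟨i, u', rfl⟩
  · exact absurd h3 (not_sub_pure (by simp))
  · rw [first] at h1 h2 h3
    obtain ⟨j, rfl⟩ := pure_of h1
    have hj : j = 1 := by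
      have e1 : ([!q, !q] : Wd) = rp (!q) 2 := rfl
      have e2 : ([!q] : Wd) = rp (!q) 1 := rfl
      rw [e1, rp_sub_rp] at h2
      rw [e2, rp_sub_rp] at h3
      omega
    subst hj
    have e3 : q :: rp (!q) 1 = [q] ++ [!q] := rfl
    rw [e3, ← List.append_assoc, lastdrop (bne q), lastsame, rp_sub_rp] at h4
    have h6 := h5 (!q)
    rw [← List.cons_append, ← rp_succ, e3, ← List.append_assoc, lastsame, lastsame,
      rp_sub_rp] at h6
    have : i = n := by omega
    rw [this, e3]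
    rfl

theorem t2_cmp (q : Bool) (n : ℕ) : ¬ [q, q].Sublist (rp (!q) n ++ [q, !q]) ∧
    ¬ [q, !q, !q].Sublist (rp (!q) n ++ [q, !q]) ∧ [q, !q].Sublist (rp (!q) n ++ [q, !q]) ∧
    (rp (!q) n ++ [q]).Sublist (rp (!q) n ++ [q, !q]) ∧
    ¬ ((!q) :: (rp (!q) n ++ [q])).Sublist (rp (!q) n ++ [q, !q]) := by
  refine ⟨?_, ?_, ?_, by simp, ?_⟩
  · rw [first]; cases q <;> decide
  · rw [first]; simp
  · rw [first]
  · have e3 : [q, !q] = [q] ++ [!q] := rfl
    rw [e3, ← List.append_assoc, ← List.cons_append, lastdrop (bne q), lastsame, ← rp_succ,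
      rp_sub_rp]
    omega

/-- `u = p^n q p q` -/
theorem t3_snd {q : Bool} {u : Wd} {n : ℕ} (h1 : ¬ [q, q, q].Sublist u)
    (h2 : ¬ [q, q, !q].Sublist u) (h2' : ¬ [q, !q, !q].Sublist u) (h3 : [q, !q, q].Sublist u)
    (h4 : (rp (!q) n ++ [q, !q]).Sublist u)
    (h5 : ∀ r, ¬ ((!q) :: (rp (!q) n ++ [q, !q]) ++ [r]).Sublist u) :
    u = rp (!q) n ++ [q, !q, q] := by
  rcases dec q u with ⟨i, rfl⟩ | ⟨i, u', rfl⟩
  · exact absurd h3 (not_sub_pure (by simp))
  · rw [first] at h1 h2 h3 h2'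
    have hu : u' = [!q, q] := by
      rcases dec q u' with ⟨j, rfl⟩ | ⟨j, u'', rfl⟩
      · exact absurd h3 (not_sub_pure (by simp))
      · rw [first] at h1 h2
        obtain rfl := nil_of h1 h2
        rw [show ([!q, q] : Wd) = rp (!q) 1 ++ [q] from rfl, lastsame, rp_sub_rp] at h3
        rw [show ([!q, !q] : Wd) = rp (!q) 2 from rfl, rp_sub] at h2'
        have : j = 1 := by
          simp at h2'
          omega
        subst this
        rfl
    subst hu
    have e3 : q :: [!q, q] = [q] ++ [!q] ++ [q] := rfl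
    have e4 : [q, !q] = [q] ++ [!q] := rfl
    rw [e3, e4, ← List.append_assoc, ← List.append_assoc, lastdrop (nbe q),
      ← List.append_assoc, lastsame, lastsame, rp_sub_rp] at h4
    have h6 := h5 q
    rw [e3, e4, ← List.append_assoc, ← List.append_assoc, ← List.append_assoc,
      ← List.cons_append, ← List.cons_append, ← rp_succ, lastsame, lastsame, lastsame,
      rp_sub_rp] at h6
    have : i = n := by omega
    rw [this]

theorem t3_cmp (q : Bool) (n : ℕ) : ¬ [q, q, q].Sublist (rp (!q) n ++ [q, !q, q]) ∧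
    ¬ [q, q, !q].Sublist (rp (!q) n ++ [q, !q, q]) ∧
    ¬ [q, !q, !q].Sublist (rp (!q) n ++ [q, !q, q]) ∧
    [q, !q, q].Sublist (rp (!q) n ++ [q, !q, q]) ∧
    (rp (!q) n ++ [q, !q]).Sublist (rp (!q) n ++ [q, !q, q]) ∧
    ¬ ((!q) :: (rp (!q) n ++ [q, !q])).Sublist (rp (!q) n ++ [q, !q, q]) := by
  refine ⟨?_, ?_, ?_, ?_, by simp, ?_⟩
  · rw [first]; cases q <;> decide
  · rw [first]; cases q <;> decide
  · rw [first]; cases q <;> decide
  · rw [first]
  · have e3 : [q, !q, q] = [q] ++ [!q] ++ [q] := rfl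
    have e4 : [q, !q] = [q] ++ [!q] := rfl
    rw [e3, e4, ← List.append_assoc, ← List.append_assoc, ← List.append_assoc,
      ← List.cons_append, ← List.cons_append, ← rp_succ, lastdrop (nbe q), lastsame, lastsame,
      rp_sub_rp]
    omega

/-- `u = p^n q q` -/
theorem tq_snd {q : Bool} {u : Wd} {n : ℕ} (h1 : ¬ [q, !q].Sublist u)
    (h2 : ¬ [q, q, q].Sublist u) (h3 : [q, q].Sublist u)
    (h4 : (rp (!q) n ++ [q]).Sublist u)
    (h5 : ∀ r, ¬ ((!q) :: (rp (!q) n ++ [q]) ++ [r]).Sublist u) : u = rp (!q) n ++ [q, q] := by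
  rcases dec q u with ⟨i, rfl⟩ | ⟨i, u', rfl⟩
  · exact absurd h3 (not_sub_pure (by simp))
  · rw [first] at h1 h2 h3
    obtain ⟨j, rfl⟩ : ∃ j, u' = rp q j := by
      have := pure_of h1
      simpa using this
    have hj : j = 1 := by
      rw [show ([q, q] : Wd) = rp q 2 from rfl, rp_sub_rp] at h2
      rw [show ([q] : Wd) = rp q 1 from rfl, rp_sub_rp] at h3
      omega
    subst hj
    have h4' := h4.count_le (!q)
    simp [rp_succ] at h4'
    have h6 := h5 q
    rw [← List.cons_append, ← rp_succ, show q :: rp q 1 = [q] ++ [q] from rfl,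
      ← List.append_assoc, lastsame, lastsame, rp_sub_rp] at h6
    have : i = n := by omega
    rw [this]
    rfl

theorem tq_cmp (q : Bool) (n : ℕ) : ¬ [q, !q].Sublist (rp (!q) n ++ [q, q]) ∧
    ¬ [q, q, q].Sublist (rp (!q) n ++ [q, q]) ∧ [q, q].Sublist (rp (!q) n ++ [q, q]) ∧
    (rp (!q) n ++ [q]).Sublist (rp (!q) n ++ [q, q]) ∧
    ¬ ((!q) :: (rp (!q) n ++ [q])).Sublist (rp (!q) n ++ [q, q]) := by
  refine ⟨?_, ?_, ?_, ?_, ?_⟩
  · rw [first]; cases q <;> decide
  · rw [first]; cases q <;> decide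
  · rw [first]
  · exact List.Sublist.append_left (by simp) _
  · intro h
    have := h.count_le (!q)
    simp at this

theorem greedy1 {q : Bool} {n i : ℕ} {w z : Wd} (h : n ≤ i) :
    (rp (!q) n ++ q :: w).Sublist (rp (!q) i ++ q :: z) ↔ w.Sublist z := by
  obtain ⟨d, rfl⟩ := Nat.exists_eq_add_of_le h
  rw [rp_add, List.append_assoc, List.append_sublist_append_left, first]

theorem mid {q : Bool} {n i j : ℕ}
    (h : (rp (!q) n ++ [q]).Sublist (rp (!q) i ++ [q] ++ rp (!q) j)) : n ≤ i := by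
  induction j with
  | zero =>
    rwa [rp_zero, List.append_nil, lastsame, rp_sub_rp] at h
  | succ j ih =>
    rw [rp_succ', ← List.append_assoc, lastdrop (bne q)] at h
    exact ih h

theorem add_snd {q : Bool} {u : Wd} {n m k : ℕ} (h1 : [q, q].Sublist u)
    (h2 : ¬ [q, q, q].Sublist u) (h3 : ¬ [q, q, !q].Sublist u)
    (h4 : (rp (!q) n ++ [q, !q]).Sublist u)
    (h5 : ∀ r, ¬ ((!q) :: (rp (!q) n ++ [q, !q]) ++ [r]).Sublist u)
    (h6 : (q :: rp (!q) m).Sublist u) (h7 : ∀ r, ¬ (q :: (!q) :: rp (!q) m ++ [r]).Sublist u)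
    (h8 : (rp (!q) k).Sublist u) (h9 : ∀ r, ¬ ((!q) :: rp (!q) k ++ [r]).Sublist u) :
    1 ≤ m ∧ k = n + m := by
  rcases dec q u with ⟨i, rfl⟩ | ⟨i, u', rfl⟩
  · exact absurd h1 (not_sub_pure (by simp))
  · rw [first] at h1 h2 h3
    rcases dec q u' with ⟨j, rfl⟩ | ⟨j, u'', rfl⟩
    · exact absurd h1 (not_sub_pure (by simp))
    · rw [first] at h2 h3
      obtain rfl := nil_of h2 h3
      have h5 := h5 q
      have h7 := h7 q
      have h9 := h9 q
      have hj : 1 ≤ j ∧ n ≤ i := by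
        have h10 : (rp (!q) n ++ [q] ++ [!q]).Sublist (rp (!q) i ++ [q] ++ rp (!q) j ++ [q]) := by
          simpa using h4
        rw [lastdrop (nbe q)] at h10
        cases j with
        | zero =>
          rw [rp_zero, List.append_nil, lastdrop (nbe q)] at h10
          exact absurd h10 (not_sub_pure (by simp))
        | succ j =>
          rw [rp_succ', ← List.append_assoc, lastsame] at h10
          exact ⟨by omega, mid h10⟩
      have hn : i = n := by
        by_contra hne
        apply h5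
        rw [show (!q) :: (rp (!q) n ++ [q, !q]) ++ [q] = rp (!q) (n + 1) ++ q :: [!q, q] by
          simp [rp_succ], greedy1 (by omega), show [!q, q] = [!q] ++ [q] from rfl, lastsame,
          show [!q] = rp (!q) 1 from rfl, rp_sub_rp]
        exact hj.1
      rw [first] at h6
      have h6' := h6.count_le (!q)
      simp at h6'
      rw [List.cons_append, first, ← rp_succ, lastsame, rp_sub_rp] at h7
      have h8' := h8.count_le (!q)
      simp at h8'
      rw [← rp_succ, show rp (!q) i ++ q :: (rp (!q) j ++ [q]) =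
        (rp (!q) i ++ q :: rp (!q) j) ++ [q] by simp, lastsame, rp_sub] at h9
      simp at h9
      omega

theorem add_cmp (q : Bool) (n m : ℕ) (hm : 1 ≤ m) :
    [q, q].Sublist (rp (!q) n ++ q :: (rp (!q) m ++ [q])) ∧
    ¬ [q, q, q].Sublist (rp (!q) n ++ q :: (rp (!q) m ++ [q])) ∧
    ¬ [q, q, !q].Sublist (rp (!q) n ++ q :: (rp (!q) m ++ [q])) ∧
    (rp (!q) n ++ [q, !q]).Sublist (rp (!q) n ++ q :: (rp (!q) m ++ [q])) ∧
    ¬ ((!q) :: (rp (!q) n ++ [q, !q])).Sublist (rp (!q) n ++ q :: (rp (!q) m ++ [q])) ∧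
    (q :: rp (!q) m).Sublist (rp (!q) n ++ q :: (rp (!q) m ++ [q])) ∧
    ¬ (q :: (!q) :: rp (!q) m).Sublist (rp (!q) n ++ q :: (rp (!q) m ++ [q])) ∧
    (rp (!q) (n + m)).Sublist (rp (!q) n ++ q :: (rp (!q) m ++ [q])) ∧
    ¬ ((!q) :: rp (!q) (n + m)).Sublist (rp (!q) n ++ q :: (rp (!q) m ++ [q])) := by
  obtain ⟨m, rfl⟩ := Nat.exists_eq_add_of_le hm
  refine ⟨?_, ?_, ?_, ?_, ?_, ?_, ?_, ?_, ?_⟩
  · rw [first, first]
  · rw [first, first]; simp
  · rw [first, first]; simp
  · rw [greedy1 (le_refl n), Nat.add_comm, rp_succ]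
    simp
  · intro h
    have h10 : (rp (!q) (n + 1) ++ [q] ++ [!q]).Sublist
      (rp (!q) n ++ [q] ++ rp (!q) (1 + m) ++ [q]) := by
      rw [rp_succ]
      simpa using h
    rw [lastdrop (nbe q), Nat.add_comm 1 m, rp_succ' _ m, ← List.append_assoc, lastsame] at h10
    have := mid h10
    omega
  · rw [first]; simp
  · rw [first]
    intro h
    have := h.count_le (!q)
    simp at this
  · rw [rp_sub]; simp
  · intro h
    have := h.count_le (!q)
    simp at this

end Pool.Agent.K4H87.RPO
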